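import Pool.Agent.Lib.MP_0d9445_pr.Layers

/-! Local absolute continuity of a surface with respect to the GFF plus an independent constant. -/

open MeasureTheory ProbabilityTheory Set Filter Topology Real
open scoped NNReal ENNReal

noncomputable section

namespace Pool.Agent.Lib.MP_0d9445_pr.Su

/-- the law of the GFF with average zero on the unit circle -/
def IsGFF0 (ν : Measure Field) : Prop := IsGFF id ν ∧ ∀ᵐ H ∂ν, H 0 = 0

/-- the reference law: the GFF plus an independent standard Gaussian constant -/
def ref (ν : Measure Field) : Measure Field :=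
  (ν.prod (gaussianReal 0 1)).map fun x => addFn x.1 (cst x.2)

/-- the potential of the circle `q` for the kernel of `gffCov` -/
def pot (q : ℝ × ℂ) : Fn :=
  ⟨fun x => log (max ‖x‖ 1) + avg (fun y => log (max ‖y‖ 1)) q
      - log (max ‖x - q.2‖ (exp (-q.1))), by
    refine ((Continuous.log (by fun_prop) fun x => ?_).add continuous_const).sub
      (Continuous.log (by fun_prop) fun x => ?_)
    · exact (lt_max_of_lt_right one_pos).ne'
    · exact (lt_max_of_lt_right (exp_pos _)).ne'⟩

/-- Cameron-Martin for the potentials of circles. -/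
def CMpot (ν : Measure Field) : Prop :=
  ∀ (q : ℝ × ℂ) (t : ℝ), ν.map (fun H => addFn H (t • pot q)) ≪ ν

variable {Ω : Type} [MeasurableSpace Ω]

/-- Near `V` the function `f` is a random continuous function `ft`; the law of the pair `h`, `ft` is
absolutely continuous for a law `ρ` of (GFF, continuous function), and under `ρ` the field
`h + ft` read inside `V` is absolutely continuous for the reference law. -/
def LocAC (P : Measure Ω) (h : Ω → Field) (f : Ω → ℂ → ℝ) (V : Set ℂ) : Prop :=
  ∃ (ft : Ω → Fn) (W : Set ℂ) (ρ : Measure (Field × Fn)), Measurable ft ∧ IsOpen W ∧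
    closure V ⊆ W ∧ (∀ᵐ ω ∂P, EqOn (ft ω) (f ω) W) ∧ IsGFF0 ρ.fst ∧
    P.map (fun ω => (h ω, ft ω)) ≪ ρ ∧
    ∀ B, MeasurableSet[sigmaOn id V] B → ref ρ.fst B = 0 → ρ {x | addFn x.1 x.2 ∈ B} = 0

end Pool.Agent.Lib.MP_0d9445_pr.Su
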