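import Pool.Agent.Lib.MP_0d9445_pr.Su.Basic
import Pool.Agent.Lib.MP_0d9445_pr.CM.Pot
import Pool.Agent.Lib.MP_0d9445_pr.Gauss.Law
import Pool.Agent.Lib.MP_0d9445_pr.BM.Radial

/-! The quantum cone is locally absolutely continuous off the origin and the unit circle. -/

open MeasureTheory ProbabilityTheory Set Filter Topology Real LQ.Gauss
open scoped NNReal ENNReal RealInnerProductSpace

noncomputable section

namespace Pool.Agent.Lib.MP_0d9445_pr.Su

open Mu BM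

namespace ConeAux

/-- the covariance of the circle averages about the origin -/
def kap (s t : ℝ) : ℝ := max (-s) 0 + max (-t) 0 - max (-s) (-t)

theorem log_max {a b : ℝ} (ha : 0 < a) (hb : 0 < b) : log (max a b) = max (log a) (log b) := by
  rcases le_total a b with h | h
  · rw [max_eq_right h, max_eq_right (log_le_log ha h)]
  · rw [max_eq_left h, max_eq_left (log_le_log hb h)]

theorem avg_of_norm {g : ℂ → ℝ} {s c : ℝ} (h : ∀ x, ‖x‖ = exp (-s) → g x = c) :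
    avg g (s, 0) = c :=
  circleAverage_const_on_circle fun x hx => h x (by simpa [abs_of_pos (exp_pos _)] using hx)

theorem pot_rad (t : ℝ) {x : ℂ} (hx : x ≠ 0) : pot (t, 0) x = kap (-log ‖x‖) t := by
  have h0 : 0 < ‖x‖ := norm_pos_iff.2 hx
  have h1 : avg (fun y => log (max ‖y‖ 1)) (t, 0) = max (-t) 0 := avg_of_norm fun y hy => by
    rw [hy, log_max (exp_pos _) one_pos, log_exp, log_one]
  change log (max ‖x‖ 1) + avg (fun y => log (max ‖y‖ 1)) (t, 0) -
    log (max ‖x - 0‖ (exp (-t))) = _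
  rw [h1, sub_zero, log_max h0 one_pos, log_max h0 (exp_pos _), log_exp, log_one, kap, neg_neg]

theorem gffCov_rad (s t : ℝ) : gffCov (s, 0) (t, 0) = kap s t := by
  rw [CM.gffCov_eq]
  refine avg_of_norm fun x hx => ?_
  rw [pot_rad t (norm_pos_iff.1 (hx ▸ exp_pos _)), hx, log_exp, neg_neg]

theorem kap_sign {σ : ℝ} (hσ : σ = 1 ∨ σ = -1) {s t : ℝ} (hs : 0 ≤ s) (ht : 0 ≤ t) :
    kap (σ * s) (σ * t) = min s t := by
  rcases hσ with rfl | rfl
  · rw [kap, one_mul, one_mul, max_eq_right (neg_nonpos.2 hs), max_eq_right (neg_nonpos.2 ht),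
      max_neg_neg]
    ring
  · simp only [kap, neg_mul, one_mul, neg_neg, max_eq_left hs, max_eq_left ht]
    linarith [min_add_max s t]

/-- the annulus -/
def Ann (σ t₀ t₁ : ℝ) : Set ℂ := {x | x ≠ 0 ∧ t₀ < σ * -log ‖x‖ ∧ σ * -log ‖x‖ < t₁}

theorem isOpen_Ann (σ t₀ t₁ : ℝ) : IsOpen (Ann σ t₀ t₁) := by
  have h : ContinuousOn (fun x : ℂ => σ * -log ‖x‖) {0}ᶜ :=
    continuousOn_const.mul (continuous_norm.continuousOn.log fun x hx => norm_ne_zero_iff.2 hx).neg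
  exact h.isOpen_inter_preimage isOpen_compl_singleton isOpen_Ioo

/-- the logarithm, cut off near the origin -/
def lg (t₁ : ℝ) : Fn := ⟨fun x => -log (max ‖x‖ (exp (-t₁))),
  (Continuous.log (by fun_prop) fun _ => (lt_max_of_lt_right (exp_pos _)).ne').neg⟩

/-- the radial time -/
def tm (σ : ℝ) (t₀ : ℝ≥0) (t₁ : ℝ) : C(ℂ, ℝ≥0) :=
  ⟨fun x => (σ * lg t₁ x - t₀).toNNReal, continuous_real_toNNReal.comp (by fun_prop)⟩

/-- the circle averages about the origin -/
def rad (σ : ℝ) (t₀ : ℝ≥0) (H : Field) : C(ℝ≥0, ℝ) :=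
  H.comp ⟨fun u => (σ * ((t₀ + u : ℝ≥0) : ℝ), 0), by fun_prop⟩

variable {σ t₁ : ℝ} {t₀ : ℝ≥0}

theorem lg_eq (hσ : σ = 1 ∨ σ = -1) {x : ℂ} (hx : x ∈ Ann σ t₀ t₁) : lg t₁ x = -log ‖x‖ := by
  have h0 : 0 < ‖x‖ := norm_pos_iff.2 hx.1
  change -log (max ‖x‖ (exp (-t₁))) = _
  rw [log_max h0 (exp_pos _), log_exp, max_eq_left]
  have h1 := hx.2.1
  have h2 := hx.2.2
  have h3 := t₀.coe_nonneg
  rcases hσ with rfl | rfl <;> linarith

theorem tm_eq (hσ : σ = 1 ∨ σ = -1) {x : ℂ} (hx : x ∈ Ann σ t₀ t₁) :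
    ((t₀ + tm σ t₀ t₁ x : ℝ≥0) : ℝ) = σ * -log ‖x‖ := by
  change (t₀ : ℝ) + ((σ * lg t₁ x - t₀).toNNReal : ℝ) = _
  rw [lg_eq hσ hx, Real.coe_toNNReal _ (sub_nonneg.2 hx.2.1.le), add_sub_cancel]

theorem tm_eq' (hσ : σ = 1 ∨ σ = -1) {x : ℂ} (hx : x ∈ Ann σ t₀ t₁) :
    σ * ((t₀ + tm σ t₀ t₁ x : ℝ≥0) : ℝ) = -log ‖x‖ := by
  rw [tm_eq hσ hx]
  rcases hσ with rfl | rfl <;> ring

theorem measurable_J : Measurable fun y : C(ℝ≥0, ℝ) => (y.comp (tm σ t₀ t₁) : Fn) :=
  (ContinuousMap.continuous_precomp _).measurable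

theorem measurable_rad : Measurable (rad σ t₀) := (ContinuousMap.continuous_precomp _).measurable

theorem measurable_avg (p : ℝ × ℂ) : Measurable fun g : Fn => avg g p := by
  have := (measurable_eval p).comp (measurable_addFn (h := fun _ : Fn => 0) measurable_const
    measurable_id)
  simpa [Function.comp_def, addFn_apply] using this

theorem indep_congr {Ω ι κ : Type*} {mΩ : MeasurableSpace Ω} {P : Measure Ω} {X X' : ι → Ω → ℝ}
    {Y Y' : κ → Ω → ℝ} (h : IndepFun (fun ω i => X i ω) (fun ω j => Y j ω) P)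
    (hX : ∀ i, X i =ᵐ[P] X' i) (hY : ∀ j, Y j =ᵐ[P] Y' j) :
    IndepFun (fun ω i => X' i ω) (fun ω j => Y' j ω) P := by
  rw [indepFun_iff_measure_inter_preimage_eq_mul] at h ⊢
  intro s t hs ht
  have h1 : (fun ω i => X i ω) ⁻¹' s =ᵐ[P] (fun ω i => X' i ω) ⁻¹' s :=
    (CM.ae_mem_iff hX hs).mono fun ω hω => propext hω
  have h2 : (fun ω i => Y i ω) ⁻¹' t =ᵐ[P] (fun ω i => Y' i ω) ⁻¹' t :=
    (CM.ae_mem_iff hY ht).mono fun ω hω => propext hω
  rw [← measure_congr h1, ← measure_congr h2, ← measure_congr (h1.inter h2), h s t hs ht]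

variable {Ω : Type} [MeasurableSpace Ω] {P : Measure Ω} {h : Ω → Field}

theorem decomp_aux (hm : Measurable h) (hσ : σ = 1 ∨ σ = -1) {V : Set ℂ}
    (hV : V ⊆ Ann σ t₀ t₁) {K : Type*} [NormedAddCommGroup K] [InnerProductSpace ℝ K]
    [CompleteSpace K] {W : K → Ω → ℝ} {f : ℝ × ℂ → K} (hW : IsIso W P)
    (hf' : ∀ p, (fun ω => h ω p) =ᵐ[P] W (f p)) (hin' : ∀ p q, ⟪f p, f q⟫ = gffCov p q) :
    IsPreBrownianReal (fun (t : ℝ≥0) ω => h ω (σ * t, 0)) P ∧
    IndepFun (fun ω (p : CM.Disc V) => h ω p.1 - avg ((rad σ t₀ (h ω)).comp (tm σ t₀ t₁)) p.1)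
      (fun ω (u : ℝ≥0) => h ω (σ * ((t₀ + u : ℝ≥0) : ℝ), 0)) P := by
  refine ⟨IsPreBrownianReal.congr (B := fun (t : ℝ≥0) => W (f (σ * t, 0)))
    ((hW.isGaussianProcess _).isPreBrownianReal_of_covariance (fun t => hW.integral_eq_zero _)
      fun s t hst => ?_) fun t => (hf' _).symm, ?_⟩
  · rw [hW.cov, hin', gffCov_rad, kap_sign hσ s.coe_nonneg t.coe_nonneg,
      min_eq_left (NNReal.coe_le_coe.2 hst)]
  have hc : Continuous fun s : ℝ => f (s, 0) := by
    rw [continuous_iff_continuousAt]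
    intro s
    rw [ContinuousAt, tendsto_iff_norm_sub_tendsto_zero]
    have e : ∀ r, ‖f (r, 0) - f (s, 0)‖ = √(kap r r - 2 * kap r s + kap s s) := fun r => by
      rw [← sqrt_sq (norm_nonneg _), norm_sub_sq_real, ← real_inner_self_eq_norm_sq,
        ← real_inner_self_eq_norm_sq, hin', hin', hin', gffCov_rad, gffCov_rad, gffCov_rad]
    have : Continuous fun r => √(kap r r - 2 * kap r s + kap s s) := by unfold kap; fun_prop
    have := this.tendsto s
    rw [show kap s s - 2 * kap s s + kap s s = 0 by ring, sqrt_zero] at this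
    simpa only [e] using this
  let τ : ℝ × ℂ → ℝ → ℝ := fun p θ =>
    σ * ((t₀ + tm σ t₀ t₁ (circleMap p.2 (exp (-p.1)) θ) : ℝ≥0) : ℝ)
  have hτ : ∀ p, Continuous (τ p) := fun p => by
    have := continuous_circleMap p.2 (exp (-p.1))
    fun_prop
  have hk : ∀ p, IntegrableOn (fun θ => f (τ p θ, 0)) (Ioc 0 (2 * π)) := fun p =>
    ((hc.comp (hτ p)).intervalIntegrable 0 (2 * π)).1
  refine indep_congr (hW.indepFun
    (f := fun p : CM.Disc V => f p.1 - (2 * π)⁻¹ • ∫ θ in Ioc 0 (2 * π), f (τ p.1 θ, 0))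
    (g := fun u : ℝ≥0 => f (σ * ((t₀ + u : ℝ≥0) : ℝ), 0)) fun p u => ?_) (fun p => ?_)
    fun u => (hf' _).symm
  · rw [inner_sub_left, real_inner_smul_left, real_inner_comm _ (∫ θ in Ioc 0 (2 * π), _),
      ← integral_inner (hk p.1), hin', CM.gffCov_eq, avg, circleAverage_def,
      intervalIntegral.integral_of_le (by positivity), smul_eq_mul, sub_eq_zero]
    congr 1
    refine integral_congr_ae (Eventually.of_forall fun θ => ?_)
    have hx : circleMap p.1.2 (exp (-p.1.1)) θ ∈ Ann σ t₀ t₁ :=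
      hV (p.2 (circleMap_mem_closedBall _ (exp_pos _).le θ))
    simp only [τ]
    rw [real_inner_comm, hin', gffCov_rad, pot_rad _ hx.1, tm_eq' hσ hx]
  · have h1 := CM.iso_integral hW (hk p.1) (X := fun θ ω => h ω (τ p.1 θ, 0))
      ((continuous_eval (F := Field)).measurable.comp ((hm.comp measurable_snd).prodMk
        (((hτ p.1).measurable.comp measurable_fst).prodMk measurable_const))) fun θ => hf' _
    filter_upwards [h1, hf' p.1, hW.sub (f p.1) ((2 * π)⁻¹ • ∫ θ in Ioc 0 (2 * π), f (τ p.1 θ, 0)),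
      hW.smul (2 * π)⁻¹ (∫ θ in Ioc 0 (2 * π), f (τ p.1 θ, 0))] with ω e1 e2 e3 e4
    rw [e3, e4, ← e1, ← e2, avg, circleAverage_def, intervalIntegral.integral_of_le (by positivity)]
    rfl

/-- the radial decomposition of the field -/
theorem decomp (hh : IsGFF h P) (h0 : ∀ᵐ ω ∂P, h ω 0 = 0) (hσ : σ = 1 ∨ σ = -1) {V : Set ℂ}
    (hV : V ⊆ Ann σ t₀ t₁) :
    IsPreBrownianReal (fun (t : ℝ≥0) ω => h ω (σ * t, 0)) P ∧
    IndepFun (fun ω (p : CM.Disc V) => h ω p.1 - avg ((rad σ t₀ (h ω)).comp (tm σ t₀ t₁)) p.1)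
      (fun ω (u : ℝ≥0) => h ω (σ * ((t₀ + u : ℝ≥0) : ℝ), 0)) P := by
  obtain ⟨K, hK, W, f, hW, hf, hin⟩ := CM.exists_iso hh.gauss hh.mean
  refine decomp_aux hh.meas hσ hV hW (f := f) (fun p => ?_)
    fun p q => (hin p q).trans (hh.cov p q)
  filter_upwards [hf p, h0] with ω h1 h2
  rw [← h1, h2, sub_zero]

/-- replacing the radial part by an independent absolutely continuous process keeps null sets -/
theorem swap_null (hh : IsGFF h P) (h0 : ∀ᵐ ω ∂P, h ω 0 = 0) (hσ : σ = 1 ∨ σ = -1) {V : Set ℂ}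
    (hV : V ⊆ Ann σ t₀ t₁) {X : Ω → ℝ≥0 → ℝ} (hX : Measurable X) (hi : IndepFun X h P)
    (hac : P.map X ≪ P.map fun ω (u : ℝ≥0) => h ω (σ * ((t₀ + u : ℝ≥0) : ℝ), 0))
    {B : Set Field} (hB : MeasurableSet[sigmaOn id V] B) (hB0 : P (h ⁻¹' B) = 0) :
    P {ω | addFn (h ω) ((toCts (X ω)).comp (tm σ t₀ t₁) - (rad σ t₀ (h ω)).comp (tm σ t₀ t₁)) ∈ B}
      = 0 := by
  have := hh.gauss.isProbabilityMeasure
  obtain ⟨S, hS, hSB⟩ := CM.exists_cyl_on hB
  let L : Field → CM.Disc V → ℝ := fun H p => H p.1 - avg ((rad σ t₀ H).comp (tm σ t₀ t₁)) p.1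
  have hL : Measurable L := measurable_pi_lambda _ fun p =>
    (measurable_eval _).sub ((measurable_avg _).comp (measurable_J.comp measurable_rad))
  let Ψ : (CM.Disc V → ℝ) × (ℝ≥0 → ℝ) → CM.Disc V → ℝ := fun x p =>
    x.1 p + avg ((toCts x.2).comp (tm σ t₀ t₁)) p.1
  have hΨ : Measurable Ψ := measurable_pi_lambda _ fun p =>
    ((measurable_pi_apply p).comp measurable_fst).add ((measurable_avg _).comp
      (measurable_J.comp (measurable_toCts.comp measurable_snd)))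
  have hR : Measurable fun ω (u : ℝ≥0) => h ω (σ * ((t₀ + u : ℝ≥0) : ℝ), 0) :=
    measurable_pi_lambda _ fun u => (measurable_eval _).comp hh.meas
  have hLh : Measurable fun ω => L (h ω) := hL.comp hh.meas
  have e1 := (decomp hh h0 hσ hV).2.map_prod_eq_prod_map_map hLh.aemeasurable hR.aemeasurable
  have e2 := (hi.comp measurable_id hL).symm.map_prod_eq_prod_map_map hLh.aemeasurable
    hX.aemeasurable
  have h1 : P.map (fun ω => (L (h ω), fun u : ℝ≥0 => h ω (σ * ((t₀ + u : ℝ≥0) : ℝ), 0)))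
      (Ψ ⁻¹' S) = 0 := by
    rw [Measure.map_apply (hLh.prodMk hR) (hΨ hS), ← hB0]
    congr 1
    ext ω
    rw [mem_preimage, mem_preimage, mem_preimage, hSB]
    have : toCts (fun u : ℝ≥0 => h ω (σ * ((t₀ + u : ℝ≥0) : ℝ), 0)) = rad σ t₀ (h ω) :=
      toCts_coe (rad σ t₀ (h ω))
    simp only [Ψ, L, this, sub_add_cancel, id]
  have h2 : P.map (fun ω => (L (h ω), X ω)) (Ψ ⁻¹' S) = 0 := by
    refine (congrArg (fun m : Measure _ => m (Ψ ⁻¹' S)) e2).trans ?_
    exact (Measure.AbsolutelyContinuous.rfl.prod hac)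
      ((congrArg (fun m : Measure _ => m (Ψ ⁻¹' S)) e1).symm.trans h1)
  rw [Measure.map_apply (hLh.prodMk hX) (hΨ hS)] at h2
  rw [← h2]
  congr 1
  ext ω
  rw [mem_ofPred_eq, mem_preimage, mem_preimage, hSB]
  have : ∀ (a b : Fn) p, avg (a - b : Fn) p = avg a p - avg b p := fun a b p =>
    circleAverage_fun_sub a.continuous.continuousOn.circleIntegrable'
      b.continuous.continuousOn.circleIntegrable'
  simp only [Ψ, L, id, addFn_apply, this]
  refine Eq.to_iff (congrArg (· ∈ S) (funext fun p => ?_))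
  ring

theorem shift_meas {V : Set ℂ} {B : Set Field} (hB : MeasurableSet[sigmaOn id V] B) (g : Fn) :
    MeasurableSet[sigmaOn id V] {H | addFn H g ∈ B} := by
  have : @Measurable Field Field (sigmaOn id V) (sigmaOn id V) fun H => addFn H g := by
    rw [measurable_iff_comap_le, sigmaOn]
    simp only [MeasurableSpace.comap_iSup, MeasurableSpace.comap_comp]
    refine iSup₂_le fun p hp => le_iSup₂_of_le p hp (Measurable.comap_le ?_)
    exact (comap_measurable fun H : Field => id H p).add_const (avg g p)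
  exact this hB

theorem log_null {ν : Measure Field} (hν : IsGFF0 ν) (cm : CMpot ν) (hσ : σ = 1 ∨ σ = -1)
    (ht₀ : t₀ ≠ 0) {V : Set ℂ} (hV : V ⊆ Ann σ t₀ t₁) {B : Set Field}
    (hB : MeasurableSet[sigmaOn id V] B) (hB0 : ref ν B = 0) (γ : ℝ) :
    ν {H | addFn H (γ • lg t₁) ∈ B} = 0 := by
  have := hν.prob
  have hBm : MeasurableSet B := sigmaOn_le measurable_id V B hB
  have h0 : (t₀ : ℝ) ≠ 0 := NNReal.coe_ne_zero.2 ht₀
  have hg := cm.qi (σ * t₀, 0)
  refine null_of_line (T := fun u H => addFn H (u • pot (σ * t₀, 0)))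
    (measurable_addFn measurable_fst ((measurable_smul_fn _).comp measurable_snd)) hg.ac
    (measurable_shift _ hBm) ?_
  filter_upwards [((cm.qi (σ * t₁, 0)).smul (γ * σ)).ae (ae_null_of_ref hBm hB0)] with H hN
  have e : {u : ℝ | addFn (addFn H (u • pot (σ * t₀, 0))) (γ • lg t₁) ∈ B} =
      (fun u : ℝ => u * t₀) ⁻¹' {c : ℝ | addFn (addFn H ((γ * σ) • pot (σ * t₁, 0))) (cst c) ∈ B} := by
    ext u
    simp only [mem_ofPred_eq, mem_preimage, addFn_addFn]
    refine mem_addFn_congr hB H fun x hx => ?_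
    have hx' := hV hx
    have h1 := hx'.2.1
    have h2 := hx'.2.2
    have h3 := t₀.coe_nonneg
    simp only [ContinuousMap.add_apply, ContinuousMap.smul_apply, ContinuousMap.const_apply,
      smul_eq_mul, lg_eq hσ hx', pot_rad _ hx'.1]
    rw [← tm_eq' hσ hx', kap_sign hσ (NNReal.coe_nonneg _) h3,
      kap_sign hσ (NNReal.coe_nonneg _) (by linarith), tm_eq hσ hx', min_eq_right h1.le,
      min_eq_left h2.le]
    ring
  rw [e, Real.volume_preimage_mul_right h0, hN, mul_zero]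

theorem isGFF0_map (hh : IsGFF h P) (h0 : ∀ᵐ ω ∂P, h ω 0 = 0) : IsGFF0 (P.map h) := by
  have hm : ∀ p, Measurable fun H : Field => H p - H 0 := fun p =>
    (measurable_eval p).sub (measurable_eval 0)
  refine ⟨⟨measurable_id, ⟨fun I => ⟨?_⟩⟩, fun p => ?_, fun p q => ?_⟩, ?_⟩
  · have h1 := (hh.gauss.hasGaussianLaw I).isGaussian_map
    rw [Measure.map_map (by exact measurable_pi_lambda _ fun i => hm i) hh.meas]
    exact h1
  · exact (integral_map hh.meas.aemeasurable (hm p).aestronglyMeasurable).trans (hh.mean p)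
  · exact (integral_map hh.meas.aemeasurable ((hm p).mul (hm q)).aestronglyMeasurable).trans
      (hh.cov p q)
  · exact (ae_map_iff hh.meas.aemeasurable
      (measurableSet_eq_fun (measurable_eval 0) measurable_const)).2 h0

theorem locAC_of (cm : ∀ ν, IsGFF0 ν → CMpot ν) (hh : IsGFF h P) (h0 : ∀ᵐ ω ∂P, h ω 0 = 0)
    (hσ : σ = 1 ∨ σ = -1) (ht₀ : t₀ ≠ 0) {V : Set ℂ} (hV : closure V ⊆ Ann σ t₀ t₁)
    {X : Ω → ℝ≥0 → ℝ} (hX : Measurable X) (hi : IndepFun X h P)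
    (hac : P.map X ≪ P.map fun ω (u : ℝ≥0) => h ω (σ * ((t₀ + u : ℝ≥0) : ℝ), 0))
    {f : Ω → ℂ → ℝ} {γ : ℝ} (hf : ∀ᵐ ω ∂P, ∀ x ∈ Ann σ t₀ t₁,
      f ω x = toCts (X ω) (tm σ t₀ t₁ x) + γ * -log ‖x‖ - h ω (-log ‖x‖, 0)) : LocAC P h f V := by
  have hV' := subset_closure.trans hV
  let ft : Ω → Fn := fun ω =>
    (toCts (X ω)).comp (tm σ t₀ t₁) - (rad σ t₀ (h ω)).comp (tm σ t₀ t₁) + γ • lg t₁
  have hft : Measurable ft := by
    have : Continuous fun x : Fn × Fn => x.1 - x.2 + γ • lg t₁ := by fun_prop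
    exact this.measurable.comp ((measurable_J.comp (measurable_toCts.comp hX)).prodMk
      (measurable_J.comp (measurable_rad.comp hh.meas)))
  have hfst : (P.map fun ω => (h ω, ft ω)).fst = P.map h := Measure.fst_map_prodMk hft
  have hG := isGFF0_map hh h0
  refine ⟨ft, Ann σ t₀ t₁, P.map fun ω => (h ω, ft ω), hft, isOpen_Ann _ _ _, hV,
    hf.mono fun ω hω x hx => ?_, hfst.symm ▸ hG, Measure.AbsolutelyContinuous.rfl,
    fun B hB hB0 => ?_⟩
  · rw [hω x hx, ← tm_eq' hσ hx]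
    change toCts (X ω) (tm σ t₀ t₁ x) - h ω (σ * ((t₀ + tm σ t₀ t₁ x : ℝ≥0) : ℝ), 0) +
      γ * lg t₁ x = _
    rw [lg_eq hσ hx, tm_eq' hσ hx]
    ring
  rw [hfst] at hB0
  have hBm : MeasurableSet B := sigmaOn_le measurable_id V B hB
  have h1 := log_null hG (cm _ hG) hσ ht₀ hV' hB hB0 γ
  rw [Measure.map_apply hh.meas (show MeasurableSet {H | addFn H (γ • lg t₁) ∈ B} from
    measurable_shift _ hBm)] at h1
  have h2 := swap_null hh h0 hσ hV' hX hi hac (shift_meas hB _) h1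
  refine (Measure.map_apply (hh.meas.prodMk hft) (continuous_addFn.measurable hBm)).trans ?_
  simp only [mem_ofPred_eq, addFn_addFn] at h2
  exact h2

theorem exists_Ann {V : Set ℂ} (hb : Bornology.IsBounded V) {σ : ℝ}
    (hV : ∀ x ∈ closure V, x ≠ 0 ∧ 0 < σ * -log ‖x‖) :
    ∃ (t₀ : ℝ≥0) (t₁ : ℝ), t₀ ≠ 0 ∧ closure V ⊆ Ann σ t₀ t₁ := by
  have hc : ContinuousOn (fun x : ℂ => σ * -log ‖x‖) (closure V) :=
    continuousOn_const.mul (continuous_norm.continuousOn.log fun x hx =>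
      norm_ne_zero_iff.2 (hV x hx).1).neg
  obtain ⟨a, ha, ha'⟩ := hb.isCompact_closure.exists_forall_le' hc fun x hx => (hV x hx).2
  obtain ⟨b, hb'⟩ := hb.isCompact_closure.bddAbove_image hc
  refine ⟨⟨a / 2, by positivity⟩, b + 1, fun h => ?_, fun x hx => ⟨(hV x hx).1, ?_, ?_⟩⟩
  · have : a / 2 = 0 := congrArg NNReal.toReal h
    linarith
  · change a / 2 < _
    linarith [ha' x hx]
  · linarith [hb' ⟨x, hx, rfl⟩]

end ConeAux

open ConeAux

variable {Ω : Type} [MeasurableSpace Ω]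

/-- SU for the cone: every bounded `V` with closure off the origin and on one side of the unit
circle. -/
theorem cone_locAC {γ Q : ℝ} (cm : ∀ ν, IsGFF0 ν → CMpot ν) {P : Measure Ω} {h : Ω → Field}
    {f : Ω → ℂ → ℝ} (hC : IsCone γ Q P h f) {V : Set ℂ} (hb : Bornology.IsBounded V)
    (hV : closure V ⊆ {x | 0 < ‖x‖ ∧ ‖x‖ < 1} ∨ closure V ⊆ {x | 1 < ‖x‖}) : LocAC P h f V := by
  obtain ⟨hh, h0, b, c, hbm, hcm, hbB, hcB, -, hi, hf⟩ := hC
  have hβ : ∀ (σ : ℝ) (t : ℝ≥0), Measurable fun ω => h ω (σ * t, 0) := fun σ t =>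
    (measurable_eval _).comp hh.meas
  rcases hV with hV | hV
  · obtain ⟨t₀, t₁, ht₀, hA⟩ := exists_Ann hb (σ := 1) fun x hx =>
      ⟨norm_pos_iff.1 (hV hx).1, by linarith [log_neg (hV hx).1 (hV hx).2]⟩
    have hpre := (decomp hh h0 (Or.inl rfl) (subset_closure.trans hA)).1
    have m1 : Measurable fun p : (ℝ≥0 → ℝ) × (ℝ≥0 → ℝ) => fun u => p.1 (t₀ + u) := by fun_prop
    refine locAC_of cm hh h0 (Or.inl rfl) ht₀ hA (X := fun ω u => b (t₀ + u) ω)
      (measurable_pi_lambda _ fun u => hbm _) (hi.comp m1 measurable_id) ?_ (γ := γ) ?_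
    · simpa only [zero_add] using
        RadAux.shift_ac hbB.toIsPreBrownianReal hbm hpre (hβ 1) 0 ht₀ ht₀
    · filter_upwards [hbB.cont] with ω hω x hx
      have h1 := tm_eq (Or.inl rfl) hx
      rw [one_mul] at h1
      have h2 : Continuous fun u => b (t₀ + u) ω := hω.comp (by fun_prop)
      rw [hf, toCts_apply h2, radial, if_pos (h1 ▸ NNReal.coe_nonneg _), ← h1, Real.toNNReal_coe]
  · obtain ⟨t₀, t₁, ht₀, hA⟩ := exists_Ann hb (σ := -1) fun x hx =>
      ⟨norm_pos_iff.1 (one_pos.trans (hV hx)), by linarith [log_pos (hV hx)]⟩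
    have hpre := (decomp hh h0 (Or.inr rfl) (subset_closure.trans hA)).1
    have m1 : Measurable fun p : (ℝ≥0 → ℝ) × (ℝ≥0 → ℝ) => afterZ (Q - γ) t₀ p.2 :=
      (measurable_afterZ _ _).comp measurable_snd
    refine locAC_of cm hh h0 (Or.inr rfl) ht₀ hA (X := fun ω => afterZ (Q - γ) t₀ fun u => c u ω)
      ((measurable_afterZ _ _).comp (measurable_pi_lambda _ hcm)) (hi.comp m1 measurable_id)
      (afterZ_ac hcB hcm hpre (hβ (-1)) _ ht₀) (γ := γ) ?_
    filter_upwards [hcB.cont] with ω hω x hx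
    have h1 := tm_eq (Or.inr rfl) hx
    rw [neg_one_mul] at h1
    have h2 : Continuous (afterZ (Q - γ) t₀ fun u => c u ω) := by
      rw [funext (afterZ_apply _ _ hω)]
      exact (hω.comp (by fun_prop)).add continuous_const
    have h3 : ¬ 0 ≤ -log ‖x‖ := by
      have := hx.2.1
      have := t₀.coe_nonneg
      have : (t₀ : ℝ) ≠ 0 := NNReal.coe_ne_zero.2 ht₀
      intro h4
      exact this (by linarith)
    rw [hf, toCts_apply h2, afterZ_apply _ _ hω, radial, if_neg h3, ← h1, Real.toNNReal_coe, h1]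
    unfold lastZ
    ring

end Pool.Agent.Lib.MP_0d9445_pr.Su
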