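import Pool.Agent.Lib.MP_0d9445_pr.Su.Basic

/-! The quantum sphere is locally absolutely continuous off its marked points. -/

open MeasureTheory ProbabilityTheory Set Filter Topology Real
open scoped NNReal ENNReal

namespace Pool.Agent.Lib.MP_0d9445_pr.Su

open Mu

theorem continuous_L : Continuous fun y : ℂ => log (max ‖y‖ 1) :=
  Continuous.log (by fun_prop) fun _ => (lt_max_of_lt_right one_pos).ne'

theorem pot_apply (q : ℝ × ℂ) (x : ℂ) : pot q x = log (max ‖x‖ 1) +
    avg (fun y => log (max ‖y‖ 1)) q - log (max ‖x - q.2‖ (exp (-q.1))) := rfl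

theorem avg_L_pos (t : ℝ) : 0 < avg (fun y => log (max ‖y‖ 1)) (t, 1) := by
  unfold avg circleAverage
  rw [smul_eq_mul]
  refine mul_pos (by positivity) (intervalIntegral.integral_pos (by positivity)
    (continuous_L.comp (continuous_circleMap _ _)).continuousOn
    (fun θ _ => log_nonneg (le_max_right _ _)) ⟨0, ⟨le_rfl, by positivity⟩, log_pos ?_⟩)
  refine lt_max_of_lt_left ?_
  have e : circleMap 1 (exp (-t)) 0 = ((1 + exp (-t) : ℝ) : ℂ) := by simp [circleMap]
  have := exp_pos (-t)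
  rw [e, Complex.norm_real, Real.norm_eq_abs, abs_of_pos (by linarith)]
  linarith

theorem avg_L_le (t : ℝ) : avg (fun y => log (max ‖y‖ 1)) (t, 1) ≤ exp (-t) := by
  refine avg_le continuous_L fun z hz => ?_
  have h1 : ‖z‖ ≤ 1 + exp (-t) := by
    have h2 : ‖z - 1‖ ≤ exp (-t) := by simpa [dist_eq_norm] using hz
    have h3 := norm_add_le (1 : ℂ) (z - 1)
    simp only [add_sub_cancel, norm_one] at h3
    linarith
  have := exp_pos (-t)
  have h4 := log_le_sub_one_of_pos (lt_max_of_lt_right one_pos : 0 < max ‖z‖ 1)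
  have h5 : max ‖z‖ 1 ≤ 1 + exp (-t) := max_le h1 (by linarith)
  linarith

/-- A Cameron-Martin direction that is a nonzero constant away from `1` and larger near `1`. -/
theorem exists_dir {ν : Measure Field} (cm : CMpot ν) (t : ℝ) :
    ∃ (g : Fn) (k r : ℝ), QI ν g ∧ k ≠ 0 ∧ 0 < r ∧ (∀ x, k ≤ g x) ∧
      (∀ x, exp (-t) ≤ ‖x - 1‖ → g x = k) ∧ ∀ x ∈ Metric.ball (1 : ℂ) r, k < g x := by
  set c : ℝ → ℝ := fun t => avg (fun y => log (max ‖y‖ 1)) (t, 1) with hc
  have hc0 : 0 < c t := avg_L_pos t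
  set t' := max (t + 1) (1 - log (c t)) with ht'
  have h1 : exp (-t') < exp (-t) := exp_lt_exp.2 (by linarith [le_max_left (t + 1) (1 - log (c t))])
  have h2 : c t' < c t := by
    refine (avg_L_le t').trans_lt ?_
    rw [← exp_log hc0]
    exact exp_lt_exp.2 (by linarith [le_max_right (t + 1) (1 - log (c t))])
  have e : ∀ x, (pot (t', 1) - pot (t, 1)) x = c t' - c t +
      (log (max ‖x - 1‖ (exp (-t))) - log (max ‖x - 1‖ (exp (-t')))) := by
    intro x; simp only [ContinuousMap.sub_apply, pot_apply, hc]; ring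
  refine ⟨pot (t', 1) - pot (t, 1), c t' - c t, exp (-t), (cm.qi _).sub (cm.qi _),
    (sub_neg.2 h2).ne, exp_pos _, fun x => ?_, fun x hx => ?_, fun x hx => ?_⟩
  · rw [e, le_add_iff_nonneg_right, sub_nonneg]
    exact log_le_log (lt_max_of_lt_right (exp_pos _)) (max_le_max le_rfl h1.le)
  · rw [e, max_eq_left hx, max_eq_left (h1.le.trans hx), sub_self, add_zero]
  · rw [mem_ball_iff_norm] at hx
    rw [e, lt_add_iff_pos_right, sub_pos]
    exact log_lt_log (lt_max_of_lt_right (exp_pos _)) (max_lt (lt_max_of_lt_right hx)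
      (lt_max_of_lt_right h1))

/-- Away from `0`, `1`, `∞` the singular part is a Cameron-Martin direction up to a constant. -/
theorem exists_sing {ν : Measure Field} (cm : CMpot ν) (γ Q t : ℝ) :
    ∃ (s : Fn) (C : ℝ), QI ν s ∧ ∀ x, exp (-t) ≤ ‖x‖ → exp (-t) ≤ ‖x - 1‖ → ‖x‖ ≤ exp t →
      s x + C = sphereFn γ Q x := by
  refine ⟨γ • pot (t, 0) + γ • pot (t, 1) + (γ - 2 * Q) • pot (-t, 0),
    -(γ * avg (fun y => log (max ‖y‖ 1)) (t, 0) + γ * avg (fun y => log (max ‖y‖ 1)) (t, 1) +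
      (γ - 2 * Q) * (avg (fun y => log (max ‖y‖ 1)) (-t, 0) - t)),
    (((cm.qi _).smul _).add ((cm.qi _).smul _)).add ((cm.qi _).smul _), fun x h0 h1 h2 => ?_⟩
  simp only [ContinuousMap.add_apply, ContinuousMap.smul_apply, pot_apply, smul_eq_mul, sub_zero,
    neg_neg, max_eq_left h0, max_eq_left h1, max_eq_right h2, log_exp, sphereFn]
  ring

theorem exists_scale {V : Set ℂ} (hV : Bornology.IsBounded V) (h0 : (0 : ℂ) ∉ closure V)
    (h1 : (1 : ℂ) ∉ closure V) :
    ∃ t : ℝ, closure V ⊆ {x | exp (-t) < ‖x‖ ∧ exp (-t) < ‖x - 1‖ ∧ ‖x‖ < exp t} := by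
  obtain ⟨a, ha, ha'⟩ := Metric.isOpen_iff.1 isClosed_closure.isOpen_compl 0 h0
  obtain ⟨b, hb, hb'⟩ := Metric.isOpen_iff.1 isClosed_closure.isOpen_compl 1 h1
  obtain ⟨R, hR⟩ := hV.closure.subset_ball 0
  have e : Tendsto (fun t : ℝ => exp (-t)) atTop (𝓝 0) := tendsto_exp_neg_atTop_nhds_zero
  obtain ⟨t, hta, htb, htR⟩ := ((e.eventually_lt_const ha).and ((e.eventually_lt_const hb).and
    (tendsto_exp_atTop.eventually_gt_atTop R))).exists
  refine ⟨t, fun x hx => ⟨hta.trans_le ?_, htb.trans_le ?_, (mem_ball_zero_iff.1 (hR hx)).trans htR⟩⟩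
  · exact not_lt.1 fun h => ha' (mem_ball_zero_iff.2 h) hx
  · exact not_lt.1 fun h => hb' (mem_ball_iff_norm.2 h) hx

variable {Ω : Type} [MeasurableSpace Ω]

/-- SU for the sphere: every bounded `V` with closure off `{0, 1}`. -/
theorem sphere_locAC {γ Q : ℝ} (hγ : 0 < γ) {μ : Field → Measure ℂ} (hμ : IsLQGMeasure γ μ)
    (cm : ∀ ν, IsGFF0 ν → CMpot ν)
    (pos : ∀ ν, IsGFF0 ν → ∀ᵐ H ∂ν, ∀ r > 0, μ H (Metric.ball 1 r) ≠ 0)
    {P : Measure Ω} {h : Ω → Field} {f : Ω → ℂ → ℝ} (hS : IsSphere γ Q μ P h f)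
    {V : Set ℂ} (hV : Bornology.IsBounded V) (h0 : (0 : ℂ) ∉ closure V) (h1 : (1 : ℂ) ∉ closure V) :
    LocAC P h f V := by
  obtain ⟨hh, ⟨ν, c, hν, hν0, hP⟩, hf⟩ := hS
  have hG : IsGFF0 ν := ⟨hν, hν0⟩
  have := hG.prob
  obtain ⟨t, ht⟩ := exists_scale hV h0 h1
  obtain ⟨s, C, hs, hsC⟩ := exists_sing (cm ν hG) γ Q t
  obtain ⟨g, k, r, hg, hk, hr, hkg, hgk, hgr⟩ := exists_dir (cm ν hG) t
  have hw : Measurable fun z => ENNReal.ofReal (exp (γ * sphereFn γ Q z)) := by
    unfold sphereFn; fun_prop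
  set area : Field → ℝ≥0∞ := fun H => ∫⁻ z, ENNReal.ofReal (exp (γ * sphereFn γ Q z)) ∂μ H
    with harea
  have ha : Measurable area := (Measure.measurable_lintegral hw).comp hμ.meas
  set F : Field → Fn := fun H => s + cst (C - log (area H).toReal / γ) with hF
  have hFm : Measurable F := by
    have : Continuous fun a : ℝ => s + cst a := continuous_const.add ContinuousMap.continuous_const'
    exact this.measurable.comp (measurable_const.sub (ha.ennreal_toReal.log.div_const γ))
  have hpair : Measurable fun H => (H, F H) := measurable_id.prodMk hFm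
  have hfst : (ν.map fun H => (H, F H)).fst = ν := by
    rw [Measure.fst_map_prodMk hFm, Measure.map_id']
  refine ⟨fun ω => F (h ω), {x | exp (-t) < ‖x‖ ∧ exp (-t) < ‖x - 1‖ ∧ ‖x‖ < exp t},
    ν.map fun H => (H, F H), hFm.comp hh, ?_, ht, .of_forall fun ω x hx => ?_, hfst.symm ▸ hG, ?_,
    fun B hB hB0 => ?_⟩
  · exact (isOpen_lt continuous_const continuous_norm).inter
      ((isOpen_lt continuous_const (continuous_id.sub continuous_const).norm).inter
        (isOpen_lt continuous_norm continuous_const))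
  · rw [hf, ← hsC x hx.1.le hx.2.1.le hx.2.2.le]
    simp only [hF, ContinuousMap.add_apply, ContinuousMap.const_apply, harea]
    ring
  · have e : (fun ω => (h ω, F (h ω))) = (fun H => (H, F H)) ∘ h := rfl
    rw [e, ← Measure.map_map hpair hh, hP]
    exact (withDensity_absolutelyContinuous _ _).map hpair
  rw [hfst] at hB0
  have hBm : MeasurableSet B := sigmaOn_le measurable_id V B hB
  have hadd : Measurable fun x : Field × Fn => addFn x.1 x.2 := continuous_addFn.measurable
  rw [show {x : Field × Fn | addFn x.1 x.2 ∈ B} = (fun x => addFn x.1 x.2) ⁻¹' B from rfl,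
    Measure.map_apply hpair (hadd hBm)]
  refine null_of_line (T := fun u H => addFn H (u • g))
    (measurable_addFn measurable_fst ((measurable_smul_fn g).comp measurable_snd)) hg.ac
    (hpair (hadd hBm)) ?_
  filter_upwards [hs.ae (ae_null_of_ref hBm hB0), pos ν hG, ae_weyl_line hμ hν g] with H hN hpos hW
  set N : Set ℝ := {a | addFn (addFn H s) (cst a) ∈ B} with hNdef
  set m : Measure ℂ := (μ H).withDensity fun z => ENNReal.ofReal (exp (γ * sphereFn γ Q z))
    with hm
  set φ : ℝ → ℝ≥0∞ := fun u => ∫⁻ z, ENNReal.ofReal (exp (u * (γ * (g z - k)))) ∂m with hφ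
  have hgm : Measurable fun z => γ * (g z - k) := by fun_prop
  have hm0 : m {z | 0 < γ * (g z - k)} ≠ 0 := by
    intro h'
    have hac : μ H ≪ m := withDensity_absolutelyContinuous' hw.aemeasurable
      (.of_forall fun z => by simp [exp_pos])
    exact hpos r hr (measure_mono_null (fun z hz => mul_pos hγ (sub_pos.2 (hgr z hz))) (hac h'))
  have n1 := null_lap hgm (fun z => mul_nonneg hγ.le (sub_nonneg.2 (hkg z))) hm0 (C := C) hγ.ne' hN
  have n2 : volume {u : ℝ | u * k + C ∈ N} = 0 := by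
    have e : {u : ℝ | u * k + C ∈ N} = (fun u => u * k) ⁻¹' ((fun a => a + C) ⁻¹' N) := rfl
    rw [e, Real.volume_preimage_mul_right hk, measure_preimage_add_right, hN, mul_zero]
  refine measure_mono_null ?_ (measure_union_null (ae_iff.1 hW) (measure_union_null n1 n2))
  intro u hu
  by_cases hWu : μ (addFn H (u • g)) =
      (μ H).withDensity fun z => ENNReal.ofReal (exp (γ * (u * g z)))
  swap
  · exact Or.inl hWu
  refine Or.inr ?_
  have e1 : area (addFn H (u • g)) = ENNReal.ofReal (exp (γ * (u * k))) * φ u := by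
    simp only [harea, hφ, hm]
    rw [hWu, lintegral_withDensity_eq_lintegral_mul _ (by fun_prop) hw,
      lintegral_withDensity_eq_lintegral_mul _ hw (by fun_prop),
      ← lintegral_const_mul _ (hw.mul (by fun_prop))]
    refine lintegral_congr fun z => ?_
    simp only [Pi.mul_apply]
    rw [← ENNReal.ofReal_mul (exp_pos _).le, ← ENNReal.ofReal_mul (exp_pos _).le,
      ← ENNReal.ofReal_mul (exp_pos _).le, ← exp_add, ← exp_add, ← exp_add]
    congr 2; ring
  have e2 : u * k + (C - log (area (addFn H (u • g))).toReal / γ) ∈ N := by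
    have hu' : addFn (addFn H (u • g)) (F (addFn H (u • g))) ∈ B := hu
    rw [addFn_addFn] at hu'
    simp only [hNdef, mem_ofPred_eq, addFn_addFn]
    refine (mem_addFn_congr hB H fun x hx => ?_).1 hu'
    simp only [hF, ContinuousMap.add_apply, ContinuousMap.smul_apply, ContinuousMap.const_apply,
      smul_eq_mul, hgk x (ht (subset_closure hx)).2.1.le]
    ring
  by_cases hfin : φ u = ∞
  · refine Or.inr ?_
    rw [e1, hfin, ENNReal.mul_top (by simp [exp_pos])] at e2
    simpa using e2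
  · refine Or.inl ⟨hfin, ?_⟩
    have hφ0 : φ u ≠ 0 := by
      intro h'
      rw [hφ, lintegral_eq_zero_iff (by fun_prop)] at h'
      exact hm0 (measure_mono_null (fun x _ => by simp [exp_pos]) (ae_iff.1 h'))
    rw [e1, ENNReal.toReal_mul, ENNReal.toReal_ofReal (exp_pos _).le,
      log_mul (exp_pos _).ne' (ENNReal.toReal_pos hφ0 hfin).ne', log_exp] at e2
    have e3 : u * k + (C - (γ * (u * k) + log (φ u).toReal) / γ) = C - log (φ u).toReal / γ := by
      field_simp; ring
    rwa [e3] at e2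

end Pool.Agent.Lib.MP_0d9445_pr.Su
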