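import Pool.Agent.Lib.MP_0d9445_pr.Su.Disk

/-! Local absolute continuity of the wedge and of the disk on small squares. -/

open MeasureTheory Set Filter Topology Real

namespace Pool.Agent.Lib.MP_0d9445_pr.Su

open Mu
open CR (osq csq sc)

theorem csq_subset_ball {z : ℂ} {r ρ : ℝ} (h : 2 * r < ρ) : csq z r ⊆ Metric.ball z ρ :=
  fun w hw => by
    have h1 := Complex.norm_le_abs_re_add_abs_im (w - z)
    rw [Complex.sub_re, Complex.sub_im] at h1
    rw [mem_ball_iff_norm]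
    linarith [hw.1, hw.2]

theorem osq_subset_csq (z : ℂ) (r : ℝ) : osq z r ⊆ csq z r := fun _ hw => ⟨hw.1.le, hw.2.le⟩

theorem closure_osq (z : ℂ) (r : ℝ) : closure (osq z r) ⊆ csq z r :=
  closure_minimal (osq_subset_csq z r)
    ((isClosed_le (f := fun w : ℂ => |w.re - z.re|) (by fun_prop) continuous_const).inter
      (isClosed_le (f := fun w : ℂ => |w.im - z.im|) (by fun_prop) continuous_const))

theorem exists_FN (L : Layers) {z : ℂ} (hz : z ∈ UH) {U : Set ℂ} (hU : U ∈ 𝓝 z) :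
    ∃ r, 0 < r ∧ 4 * r < z.im ∧ csq z r ⊆ U ∧ FN (osq z r) := by
  obtain ⟨m, hm⟩ := free_null L
  obtain ⟨ρ, hρ, hρU⟩ := Metric.mem_nhds_iff.1 hU
  have h0 : 0 < z.im := hz
  obtain ⟨n, hn⟩ := exists_pow_lt_of_lt_one (lt_min (div_pos hρ (by norm_num : (0 : ℝ) < 6))
    (div_pos h0 (by norm_num : (0 : ℝ) < 12))) (by norm_num : (2 : ℝ)⁻¹ < 1)
  have h1 : sc n < ρ / 6 := hn.trans_le (min_le_left _ _)
  have h2 : sc n < z.im / 12 := hn.trans_le (min_le_right _ _)
  have h3 := CR.sc_add_le n m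
  have h4 := CR.sc_pos (n + m)
  exact ⟨3 * sc (n + m), by linarith, by linarith, (csq_subset_ball (by linarith)).trans hρU,
    hm n z (by linarith)⟩

variable {Ω : Type} [MeasurableSpace Ω] {P : Measure Ω} {h : Ω → Field} {f : Ω → ℂ → ℝ}
  {γ Q : ℝ}

/-- SU for the wedge: small squares around the points of the half-plane off the unit circle -/
theorem wedge_locAC (L : Layers) (hC : IsWedge γ Q P h f) {z : ℂ} (hz : z ∈ UH) (h1 : ‖z‖ ≠ 1) :
    ∃ r, 0 < r ∧ csq z r ⊆ UH ∧ LocAC P h f (osq z r) := by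
  have hU : IsOpen UH := isOpen_lt continuous_const Complex.continuous_im
  have h0 : 0 < ‖z‖ := norm_pos_iff.2 fun h => by simp [h, UH] at hz
  obtain ⟨U, hUz, hU'⟩ : ∃ U ∈ 𝓝 z, U ⊆ {x : ℂ | 0 < ‖x‖ ∧ ‖x‖ < 1} ∨ U ⊆ {x | 1 < ‖x‖} := by
    rcases h1.lt_or_gt with h2 | h2
    · exact ⟨_, ((isOpen_lt continuous_const continuous_norm).inter
        (isOpen_lt continuous_norm continuous_const)).mem_nhds ⟨h0, h2⟩, Or.inl subset_rfl⟩
    · exact ⟨_, (isOpen_lt continuous_const continuous_norm).mem_nhds h2, Or.inr subset_rfl⟩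
  obtain ⟨r, hr, h4, hs, hN⟩ := exists_FN L hz (inter_mem (hU.mem_nhds hz) hUz)
  have h5 := (closure_osq z r).trans (hs.trans inter_subset_right)
  exact ⟨r, hr, hs.trans inter_subset_left, wedge_locAC_of hC (Metric.isBounded_ball.subset
    ((osq_subset_csq z r).trans (csq_subset_ball (ρ := 3 * r) (by linarith)))) hN hr
    (fun w hw => by linarith [(abs_lt.1 hw.2).1]) (hU'.imp h5.trans h5.trans)⟩

/-- SU for the disk: small squares around the points of the half-plane -/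
theorem disk_locAC (L : Layers) {l : ℝ} (hγ : γ ≠ 0) (hl : l ≠ 0) (hD : IsDisk γ Q l P h f) {z : ℂ}
    (hz : z ∈ UH) : ∃ r, 0 < r ∧ csq z r ⊆ UH ∧ LocAC P h f (osq z r) := by
  obtain ⟨r, hr, h4, hs, hN⟩ := exists_FN L hz
    ((isOpen_lt continuous_const Complex.continuous_im).mem_nhds hz)
  exact ⟨r, hr, hs, disk_locAC_of hγ hl hD hN (r := 3 * r) (by linarith) (by linarith)
    ((osq_subset_csq z r).trans (csq_subset_ball (by linarith)))⟩

end Pool.Agent.Lib.MP_0d9445_pr.Su
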