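import Pool.Agent.Lib.MP_0d9445_pr.Su.Lip
import Pool.Agent.Lib.MP_0d9445_pr.CM.Pot

/-! The even part of the GFF is locally absolutely continuous in the upper half-plane. -/

open MeasureTheory ProbabilityTheory Set Filter Topology Real ComplexConjugate LQ.Gauss
open scoped NNReal ENNReal RealInnerProductSpace

noncomputable section

namespace Pool.Agent.Lib.MP_0d9445_pr.Su

open Mu
open CR (osq csq sc lip)

/-- the even part of a field -/
def ev (H : Field) : Field :=
  ⟨fun p => (H p + H (p.1, conj p.2)) / √2, by fun_prop⟩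

/-- the even part of a function -/
def evF (g : Fn) : Fn := ⟨fun z => (g z + g (conj z)) / √2, by fun_prop⟩

theorem ev_apply (H : Field) (p : ℝ × ℂ) : ev H p = (H p + H (p.1, conj p.2)) / √2 := rfl

theorem evF_apply (g : Fn) (z : ℂ) : evF g z = (g z + g (conj z)) / √2 := rfl

theorem measurable_ev : Measurable ev :=
  CM.measurable_cm_iff.2 fun _ => ((measurable_eval _).add (measurable_eval _)).div_const _

theorem measurable_evF : Measurable evF :=
  CM.measurable_cm_iff.2 fun _ => ((measurable_eval _).add (measurable_eval _)).div_const _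

theorem avg_conj (g : ℂ → ℝ) (p : ℝ × ℂ) : avg (fun z => g (conj z)) p = avg g (p.1, conj p.2) := by
  unfold avg circleAverage
  congr 1
  have e : ∀ θ, conj (circleMap p.2 (exp (-p.1)) θ) = circleMap (conj p.2) (exp (-p.1)) (-θ) := by
    intro θ
    simp only [circleMap, map_add, map_mul, Complex.conj_ofReal, ← Complex.exp_conj,
      Complex.conj_I, Complex.ofReal_neg, mul_neg, neg_mul]
  simp only [e]
  rw [intervalIntegral.integral_comp_neg fun w => g (circleMap (conj p.2) (exp (-p.1)) w)]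
  have t₀ : Function.Periodic (fun w => g (circleMap (conj p.2) (exp (-p.1)) w)) (2 * π) :=
    fun x => by simp only [periodic_circleMap _ _ x]
  simpa using t₀.intervalIntegral_add_eq (-(2 * π)) 0

theorem avg_evF (g : Fn) (p : ℝ × ℂ) : avg (evF g) p = (avg g p + avg g (p.1, conj p.2)) / √2 := by
  rw [← avg_conj, ← avg_add g.continuous (by fun_prop), div_eq_inv_mul]
  have : (evF g : ℂ → ℝ) = fun z => (√2)⁻¹ • (g z + g (conj z)) := by
    funext z; rw [evF_apply, smul_eq_mul, div_eq_inv_mul]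
  rw [this, avg, circleAverage_fun_smul]
  rfl

theorem ev_addFn (H : Field) (g : Fn) : ev (addFn H g) = addFn (ev H) (evF g) := by
  ext p
  simp only [ev_apply, addFn_apply, avg_evF]
  ring

theorem evF_cst (c : ℝ) : evF (cst c) = cst (√2 * c) := by
  ext z
  have : √2 * √2 = 2 := mul_self_sqrt zero_le_two
  have h0 : √2 ≠ 0 := by positivity
  simp only [evF_apply, ContinuousMap.const_apply]
  field_simp
  linear_combination (-c) * this

theorem evF_add (f g : Fn) : evF (f + g) = evF f + evF g := by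
  ext z
  simp only [evF_apply, ContinuousMap.add_apply]
  ring

/-- the even part read inside `V` is read inside `V` and its mirror image -/
theorem measurable_ev_on {U V : Set ℂ} (h : V ⊆ U) (h' : ∀ z ∈ V, conj z ∈ U) :
    @Measurable Field Field (sigmaOn id U) (sigmaOn id V) ev := by
  have key : ∀ p : ℝ × ℂ, Metric.closedBall p.2 (exp (-p.1)) ⊆ U →
      Measurable[sigmaOn id U] fun H : Field => H p := fun p hp =>
    Measurable.of_comap_le (le_iSup₂_of_le (f := fun (p : ℝ × ℂ)
      (_ : Metric.closedBall p.2 (exp (-p.1)) ⊆ U) =>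
        MeasurableSpace.comap (fun H : Field => (id H : Field) p) inferInstance) p hp le_rfl)
  refine measurable_iff_comap_le.2 ?_
  simp only [sigmaOn, MeasurableSpace.comap_iSup, MeasurableSpace.comap_comp]
  refine iSup₂_le fun p hp => Measurable.comap_le ?_
  refine ((key p (hp.trans h)).add (key (p.1, conj p.2) fun w hw => ?_)).div_const _
  rw [← Complex.conj_conj w]
  refine h' _ (hp ?_)
  rw [mem_closedBall_iff_norm] at hw ⊢
  rw [← Complex.norm_conj, map_sub, Complex.conj_conj]
  exact hw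

variable (L : Layers)

theorem ev_law_zero {V : Set ℂ} (hV : ∀ z ∈ V, 1 / 4 ≤ z.im) {B : Set Field}
    (hB : MeasurableSet[sigmaOn id V] B) :
    L.P {ω | ev (L.H 0 ω) ∈ B} = L.P {ω | L.H 0 ω ∈ B} := by
  obtain ⟨S, hS, hSB⟩ := CM.exists_cyl_on hB
  have hg : IsGaussianProcess (fun (p : ℝ × ℂ) ω => L.H 0 ω p) L.P :=
    L.gproc.comp_right fun p => Sum.inr (0, p)
  obtain ⟨K, _, _, _, W, f, hW, e, -⟩ := CM.exists_iso' hg (L.mean_H 0)
  have hm : ∀ p, Measurable fun ω => L.H 0 ω p := fun p => (measurable_eval p).comp (L.meas_H 0)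
  have hc : ∀ p q, HasSum (fun j : ℕ => avg (fun x => avg (fun y => layCov L.k j x y) q) p)
      ⟪f p, f q⟫ := fun p q => hW.version_cov (e p) (e q) ▸ L.cov_H p q
  have h1 : ∀ p q : ℝ × ℂ, ⟪f (p.1, conj p.2), f (q.1, conj q.2)⟫ = ⟪f p, f q⟫ := fun p q => by
    refine (hc _ _).unique ?_
    convert hc p q using 2 with j
    rw [← avg_conj]
    congr 1
    funext x
    rw [← avg_conj]
    congr 1
    funext y
    rw [layCov, layCov, ← map_sub, Complex.norm_conj]
  have h2 : ∀ p q : CM.Disc V, ⟪f p.1, f (q.1.1, conj q.1.2)⟫ = 0 := fun p q => by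
    refine (hc _ _).unique ?_
    convert hasSum_zero using 2 with j
    refine (CM.avg_congr (g := fun _ => 0) (fun x hx => ?_) p).trans (circleAverage_const _ _ _)
    change avg _ _ = 0
    rw [← avg_conj]
    refine (CM.avg_congr (g := fun _ => 0) (fun y hy => ?_) q).trans (circleAverage_const _ _ _)
    have h3 : 1 / 2 ≤ ‖x - conj y‖ := by
      have := Complex.im_le_norm (x - conj y)
      rw [Complex.sub_im, Complex.conj_im] at this
      linarith [hV x hx, hV y hy]
    change layCov _ _ _ _ = 0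
    rw [layCov, intervalIntegral.integral_congr (g := fun _ => 0) fun v hv => ?_,
      intervalIntegral.integral_zero]
    have h4 : (1 : ℝ) ≤ 2 ^ (j : ℤ) := one_le_zpow₀ one_le_two (Int.natCast_nonneg j)
    have h5 : (2 : ℝ) ^ (j : ℤ) ≤ 2 ^ ((j : ℤ) + 1) := zpow_le_zpow_right₀ one_le_two (by omega)
    rw [uIcc_of_le h5] at hv
    simp only
    rw [L.k_supp _ (by nlinarith [hv.1]), zero_div]
  have law := hW.version_map_eq hW (X := fun (p : CM.Disc V) ω => ev (L.H 0 ω) p.1)
    (X' := fun (p : CM.Disc V) ω => L.H 0 ω p.1)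
    (f := fun p => (√2)⁻¹ • (f p.1 + f (p.1.1, conj p.1.2))) (f' := fun p => f p.1)
    (fun p => (measurable_eval p.1).comp (measurable_ev.comp (L.meas_H 0))) (fun p => ?_)
    (fun p => hm p.1) (fun p => e p.1) fun p q => ?_
  · have m1 : Measurable fun ω (p : CM.Disc V) => ev (L.H 0 ω) p.1 := measurable_pi_lambda _
      fun p => (measurable_eval p.1).comp (measurable_ev.comp (L.meas_H 0))
    have m2 : Measurable fun ω (p : CM.Disc V) => L.H 0 ω p.1 :=
      measurable_pi_lambda _ fun p => hm p.1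
    have := congrArg (fun μ : Measure (CM.Disc V → ℝ) => μ S) law
    simp only [Measure.map_apply m1 hS, Measure.map_apply m2 hS] at this
    simp only [hSB]
    exact this
  · filter_upwards [e p.1, e (p.1.1, conj p.1.2), hW.add (f p.1) (f (p.1.1, conj p.1.2)),
      hW.smul (√2)⁻¹ (f p.1 + f (p.1.1, conj p.1.2))] with ω a b c d
    rw [d, c, ← a, ← b, ev_apply, div_eq_inv_mul]
  · have : √2 * √2 = 2 := mul_self_sqrt zero_le_two
    have h0 : √2 ≠ 0 := by positivity
    rw [real_inner_smul_left, real_inner_smul_right, inner_add_left, inner_add_right,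
      inner_add_right, h1, h2 p q, real_inner_comm (f q.1) (f (p.1.1, conj p.1.2)), h2 q p]
    field_simp
    linear_combination (-⟪f p.1, f q.1⟫) * this

theorem affine_ev {a : ℝ} (H : Field) : affine 0 a 0 (ev H) = ev (affine 0 a 0 H) := by
  ext p
  simp [affine, ev_apply]

/-- the even part of the fine field has the law of the fine field above height `sc n / 4` -/
theorem ev_law (n : ℕ) {V : Set ℂ} (hV : ∀ z ∈ V, sc n / 4 ≤ z.im) {B : Set Field}
    (hB : MeasurableSet[sigmaOn id V] B) :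
    L.P {ω | ev (L.H n ω) ∈ B} = L.P {ω | L.H n ω ∈ B} := by
  have hs := CR.sc_pos n
  have ha : ((sc n : ℝ) : ℂ) ≠ 0 := Complex.ofReal_ne_zero.2 hs.ne'
  set a : ℂ := ((sc n : ℝ) : ℂ) with hadef
  set B' := affine 0 a⁻¹ (-0 / a) ⁻¹' B with hB'
  have hB'm : MeasurableSet[sigmaOn id {z : ℂ | 1 / 4 ≤ z.im}] B' := by
    refine measurable_affine_on 0 (inv_ne_zero ha) _ (fun z hz => ?_) hB
    have e : a⁻¹ * z + -0 / a = z / ((sc n : ℝ) : ℂ) := by rw [← hadef]; field_simp; ring
    rw [mem_ofPred_eq, e, Complex.div_ofReal_im, le_div_iff₀ hs]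
    linarith [hV z hz]
  have law : ∀ S : Set Field, MeasurableSet S →
      L.P {ω | affine 0 a 0 (L.H n ω) ∈ S} = L.P {ω | L.H 0 ω ∈ S} := fun S hS => by
    have h := congrArg (fun μ : Measure Field => μ S) (L.law_affine 0 n 0 0)
    simp only [zero_add, dy_eq_sc] at h
    rwa [Measure.map_apply ((EN.measurable_affine _ _ _).fun_comp (L.meas_H _)) hS,
      Measure.map_apply (L.meas_H _) hS] at h
  have hm := sigmaOn_le measurable_id _ _ hB'm
  have h1 := ev_law_zero L (fun z hz => hz) hB'm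
  rw [← law _ hm] at h1
  have h2 := (law _ (measurable_ev hm)).trans h1
  have e : ∀ H, ev (affine 0 a 0 H) = affine 0 a 0 (ev H) := fun H => (affine_ev H).symm
  simpa only [hB', mem_preimage, e, affine_inv ha] using h2

theorem ae_lip_eta (j : ℤ) (ρ : ℝ) : ∀ᵐ ω ∂L.P, lip (L.eta j ω) (Metric.ball 0 ρ) ≠ ∞ := by
  have hl : ∀ r, Measurable fun g : Fn => lip g (Metric.ball 0 r) := fun r =>
    CR.measurable_lip measurable_eval Metric.isOpen_ball
  have h0 : ∀ r, ∀ᵐ ω ∂L.P, lip (L.eta 0 ω) (Metric.ball 0 r) ≠ ∞ := fun r => by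
    filter_upwards [ae_lt_top (CR.measurable_ex.comp (((hl r).comp (L.meas_eta 0)).const_mul _))
      (L.lipexp 1 r).ne] with ω hω h
    simp [h, CR.ex] at hω
  have hp : Measurable fun x : (ℤ → Fn) × (ℤ → Field) => x.1 j :=
    (measurable_pi_apply j).comp measurable_fst
  have h := congrArg (Measure.map fun x : (ℤ → Fn) × (ℤ → Field) => x.1 j) (L.cov (-j) 0 0)
  rw [Measure.map_map hp ((measurable_pi_lambda _ fun _ =>
      (EN.measurable_resc _ _).fun_comp (L.meas_eta _)).prodMk (measurable_pi_lambda _ fun _ =>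
      (EN.measurable_affine _ _ _).fun_comp (L.meas_H _))),
    Measure.map_map hp ((measurable_pi_lambda _ L.meas_eta).prodMk
      (measurable_pi_lambda _ L.meas_H))] at h
  simp only [Function.comp_def, add_neg_cancel] at h
  have hS : MeasurableSet {g : Fn | lip g (Metric.ball 0 ρ) ≠ ∞} :=
    (hl ρ (measurableSet_singleton ∞)).compl
  rw [← ae_map_iff (L.meas_eta j).aemeasurable hS, ← h,
    ae_map_iff ((EN.measurable_resc _ _).fun_comp (L.meas_eta _)).aemeasurable hS]
  filter_upwards [h0 (‖dy (-j) 0‖ * ρ)] with ω hω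
  refine lip_comp_ne_top hω (K := ‖dy (-j) 0‖₊) (fun z hz => ?_) (LipschitzWith.of_dist_le_mul
    fun x z => ?_) fun _ => rfl
  · rw [mem_ball_zero_iff] at hz ⊢
    rw [add_zero, norm_mul]
    exact mul_lt_mul_of_pos_left hz (norm_pos_iff.2 (dy_ne_zero _ _))
  · rw [dist_add_right, dist_eq_norm (_ * x), ← mul_sub, norm_mul, ← dist_eq_norm, coe_nnnorm]

theorem ae_lip (n : ℕ) (ρ : ℝ) :
    ∀ᵐ ω ∂L.P, lip (L.S 0 n ω + L.ginf ω) (Metric.ball 0 ρ) ≠ ∞ := by
  have h0 : ∀ᵐ ω ∂L.P, lip (L.ginf ω) (Metric.ball 0 ρ) ≠ ∞ := by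
    filter_upwards [ae_lt_top (CR.measurable_ex.comp (((CR.measurable_lip measurable_eval
      Metric.isOpen_ball).comp L.meas_ginf).const_mul _)) (L.lipexp_ginf 1 ρ).ne] with ω hω h
    simp [h, CR.ex] at hω
  filter_upwards [h0, ae_all_iff.2 fun j => ae_lip_eta L j ρ] with ω h1 h2
  refine lip_add_ne_top ?_ h1
  unfold Layers.S
  induction n with
  | zero => simp [CR.lip_zero]
  | succ n ih => rw [Finset.sum_range_succ]; exact lip_add_ne_top ih (h2 _)

theorem indep_coarse (n : ℕ) : IndepFun (fun ω => L.S 0 n ω + L.ginf ω) (L.H n) L.P := by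
  have hm : Measurable fun x : Fn × (Iio (n : ℤ) → Fn) => ∑ i : Fin n, x.2 ⟨0 + (i : ℕ), by
      have := i.2; simp only [mem_Iio]; omega⟩ + x.1 :=
    Measurable.fun_add (Finset.measurable_fun_sum _ fun _ _ =>
      (measurable_pi_apply _).comp measurable_snd) measurable_fst
  have h := (L.indep_ginf n).comp hm measurable_id
  have e : L.S 0 n = fun ω => ∑ i : Fin n, L.eta (0 + (i : ℕ)) ω :=
    funext fun ω => Finset.sum_range fun i => L.eta (0 + i) ω
  rw [e]
  exact h

variable {Ω : Type} [MeasurableSpace Ω] {P : Measure Ω}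

theorem null_indep [IsProbabilityMeasure P] {T : Ω → Fn} {Y : Ω → Field} (hT : Measurable T)
    (hY : Measurable Y) (hi : IndepFun T Y P) {B : Set Field} (hB : MeasurableSet B) :
    P {ω | addFn (Y ω) (T ω) ∈ B} = 0 ↔ ∀ᵐ t ∂P.map T, P {ω | addFn (Y ω) t ∈ B} = 0 := by
  have := Measure.isProbabilityMeasure_map (μ := P) hY.aemeasurable
  have hS : MeasurableSet {x : Fn × Field | addFn x.2 x.1 ∈ B} :=
    measurable_addFn measurable_snd measurable_fst hB
  rw [indepFun_iff_map_prod_eq_prod_map_map hT.aemeasurable hY.aemeasurable] at hi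
  refine Iff.trans ?_ (eventually_congr (.of_forall fun t =>
    (Measure.map_apply hY (measurable_prodMk_left (x := t) hS)).congr_left))
  refine Iff.trans ?_ (Measure.measure_prod_null hS)
  rw [← hi, Measure.map_apply (hT.prodMk hY) hS]
  rfl

/-- the constants that move `H` into `B` are Lebesgue-null -/
def LN (B : Set Field) (H : Field) : Prop := volume {c : ℝ | addFn H (cst c) ∈ B} = 0

theorem cst_add (a b : ℝ) : cst (a + b) = cst a + cst b := rfl

theorem LN_cst {B : Set Field} {H : Field} (a : ℝ) : LN B (addFn H (cst a)) ↔ LN B H := by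
  have e : {c : ℝ | addFn (addFn H (cst a)) (cst c) ∈ B} =
      (fun c => a + c) ⁻¹' {c : ℝ | addFn H (cst c) ∈ B} := by
    ext c; simp only [mem_ofPred_eq, mem_preimage, addFn_addFn, cst_add]
  rw [LN, e, measure_preimage_add, LN]

theorem measurableSet_LN {B : Set Field} (hB : MeasurableSet B) : MeasurableSet {H | LN B H} :=
  measurable_measure_prodMk_left (measurable_addFn measurable_fst
    (measurable_cst.comp measurable_snd) hB) (measurableSet_singleton 0)

theorem ae_LN_iff [SFinite P] {B : Set Field} (hB : MeasurableSet B) {X : Ω → Field}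
    (hX : Measurable X) :
    (∀ᵐ ω ∂P, LN B (X ω)) ↔ ∀ᵐ c : ℝ, P {ω | addFn (X ω) (cst c) ∈ B} = 0 := by
  have hS : MeasurableSet {x : Ω × ℝ | addFn (X x.1) (cst x.2) ∈ B} :=
    measurable_addFn (hX.comp measurable_fst) (measurable_cst.comp measurable_snd) hB
  simp only [LN, measure_eq_zero_iff_ae_notMem]
  exact Measure.ae_ae_comm (p := fun ω c => addFn (X ω) (cst c) ∉ B) hS.compl

include L in
/-- Events of a small square of the upper half-plane that are null for the reference law are null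
for the even part of the GFF plus almost every constant. -/
theorem free_null : ∃ m : ℕ, ∀ (n : ℕ) (y : ℂ), 4 * sc n ≤ y.im →
    ∀ B, MeasurableSet[sigmaOn id (osq y (3 * sc (n + m)))] B → ∀ ν, IsGFF0 ν → ref ν B = 0 →
      ∀ᵐ H ∂ν, LN B (ev H) := by
  obtain ⟨m, hm⟩ := null_lip L
  refine ⟨m, fun n y hy B hB ν hν hB0 => ?_⟩
  have := hν.prob
  have hs := CR.sc_pos n
  have hBm : MeasurableSet B := sigmaOn_le measurable_id _ B hB
  set X : L.Ω → Field := fun ω => addFn (L.H 0 ω) (L.ginf ω) with hX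
  set T : L.Ω → Fn := fun ω => L.S 0 n ω + L.ginf ω with hT
  have hXm : Measurable X := L.gff.meas
  have hTm : Measurable T := (L.meas_S 0 n).add L.meas_ginf
  have hXT : ∀ᵐ ω ∂L.P, X ω = addFn (L.H n ω) (T ω) := by
    filter_upwards [L.steps 0 n] with ω hω
    simp only [hX, hT, hω, addFn_addFn, zero_add]
  have hνX : ν = L.P.map fun ω => EN.nrm (X ω) := by
    rw [← EN.gff_law hν.1 L.gff]
    exact (Measure.map_id.symm.trans (Measure.map_congr (hν.2.mono fun H h =>
      (EN.nrm_of_zero h).symm)))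
  have hn := (EN.measurable_nrm.fun_comp hXm).aemeasurable (μ := L.P)
  set ρ := ‖y‖ + 3 with hρ
  have hsub : ∀ z ∈ csq y (sc n), z ∈ Metric.ball (0 : ℂ) ρ := fun z hz => by
    have h1 := Complex.norm_le_abs_re_add_abs_im (z - y)
    have h2 : sc n ≤ 1 := by simpa [sc] using CR.sc_add_le 0 n
    have h3 := norm_add_le y (z - y)
    rw [Complex.sub_re, Complex.sub_im] at h1
    rw [add_sub_cancel] at h3
    rw [mem_ball_zero_iff]
    linarith [hz.1, hz.2]
  have hlip : ∀ᵐ t ∂L.P.map T, lip t (Metric.ball 0 ρ) ≠ ∞ :=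
    (ae_map_iff hTm.aemeasurable (CR.measurable_lip measurable_eval Metric.isOpen_ball
      (measurableSet_singleton ∞)).compl).2 (ae_lip L n ρ)
  have := Measure.isProbabilityMeasure_map (μ := L.P) hTm.aemeasurable
  have h1 : ∀ᵐ ω ∂L.P, LN B (X ω) := by
    have h := ae_null_of_ref hBm hB0
    rw [hνX] at h
    filter_upwards [ae_of_ae_map hn h] with ω hω
    exact (LN_cst _).1 hω
  obtain ⟨c₀, hc₀⟩ := ((ae_LN_iff hBm hXm).1 h1).exists
  have h2 : L.P {ω | addFn (L.H n ω) (T ω) ∈ {H | addFn H (cst c₀) ∈ B}} = 0 := by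
    rw [← hc₀]
    exact measure_congr (hXT.mono fun ω hω => by
      change (addFn (addFn _ _) _ ∈ B) = (addFn (X ω) _ ∈ B); rw [hω])
  obtain ⟨t₀, ht₀, hl₀⟩ := (((null_indep hTm (L.meas_H n) (indep_coarse L n)
    (measurable_shift _ hBm)).1 h2).and hlip).exists
  have h3 : ∀ u : Fn, lip u (csq y (sc n)) ≠ ∞ → L.P {ω | addFn (ev (L.H n ω)) u ∈ B} = 0 := by
    intro u hu
    refine (ev_law L n (fun z hz => ?_) (shift_on hB u)).trans ?_
    · linarith [(abs_lt.1 hz.2).1, CR.sc_add_le n m]
    · have h := hm n y (u + (-1 : ℝ) • t₀ + cst (-c₀)) (by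
        rw [CR.lip_add_const]
        exact lip_add_ne_top hu (lip_smul_ne_top (ne_top_of_le_ne_top hl₀
          (CR.lip_mono _ hsub)) _)) _ (shift_on (shift_on hB (cst c₀)) t₀) ht₀
      have e : u + (-1 : ℝ) • t₀ + cst (-c₀) + (t₀ + cst c₀) = u := by
        ext z; simp; ring
      simpa only [mem_ofPred_eq, addFn_addFn, e] using h
  have h4 : ∀ᵐ ω ∂L.P, LN B (ev (X ω)) := by
    refine (ae_LN_iff hBm (measurable_ev.fun_comp hXm)).2 (.of_forall fun c => ?_)
    have hS : MeasurableSet {H | addFn (ev H) (cst c) ∈ B} :=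
      measurable_ev (measurable_shift _ hBm)
    have h := (null_indep hTm (L.meas_H n) (indep_coarse L n) hS).2 (hlip.mono fun t ht => by
      have hl : lip (evF t + cst c) (csq y (sc n)) ≠ ∞ := by
        have e : evF t = (√2)⁻¹ • (t + t.comp ⟨fun z => conj z, by fun_prop⟩) := by
          ext z; simp [evF_apply, div_eq_inv_mul, mul_add]
        rw [CR.lip_add_const, e]
        refine lip_smul_ne_top (lip_add_ne_top (ne_top_of_le_ne_top ht (CR.lip_mono _ hsub))
          (lip_comp_ne_top ht (fun z hz => ?_) Complex.isometry_conj.lipschitz fun _ => rfl)) _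
        have := hsub z hz
        rwa [mem_ball_zero_iff, ← Complex.norm_conj, ← mem_ball_zero_iff] at this
      simpa only [mem_ofPred_eq, ev_addFn, addFn_addFn] using h3 _ hl)
    rw [← h]
    exact measure_congr (hXT.mono fun ω hω => by
      change (addFn (ev (X ω)) _ ∈ B) = (addFn (ev (addFn _ _)) _ ∈ B); rw [hω])
  rw [hνX]
  refine (ae_map_iff hn (measurable_ev (measurableSet_LN hBm))).2 ?_
  filter_upwards [h4] with ω hω
  rw [EN.nrm, ev_addFn, evF_cst]
  exact (LN_cst _).2 hω

end Pool.Agent.Lib.MP_0d9445_pr.Su
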