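import Mathlib

/-! Null sets along lines of quasi-invariant shifts; Laplace transforms expand. -/

open MeasureTheory Set Filter Topology Real
open scoped NNReal ENNReal

namespace Pool.Agent.Lib.MP_0d9445_pr.Su

/-- A set met in a null set of times by almost every orbit of quasi-invariant maps is null. -/
theorem null_of_line {X : Type*} [MeasurableSpace X] {ν : Measure X} [SFinite ν]
    {T : ℝ → X → X} (hT : Measurable fun x : X × ℝ => T x.2 x.1)
    (hac : ∀ t, ν ≪ ν.map (T t)) {A : Set X} (hA : MeasurableSet A)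
    (h : ∀ᵐ x ∂ν, volume {t | T t x ∈ A} = 0) : ν A = 0 := by
  have hS : MeasurableSet {x : X × ℝ | T x.2 x.1 ∈ A} := hT hA
  have h1 : ∀ᵐ x ∂ν, ∀ᵐ t ∂(volume : Measure ℝ), T t x ∉ A := by
    filter_upwards [h] with x hx
    rw [ae_iff]; simpa using hx
  have h2 : ∀ᵐ t ∂(volume : Measure ℝ), ∀ᵐ x ∂ν, T t x ∉ A :=
    (Measure.ae_ae_comm (p := fun x t => T t x ∉ A) hS.compl).1 h1
  obtain ⟨t, ht⟩ := h2.exists
  have hTt : Measurable (T t) := hT.comp (measurable_id.prodMk measurable_const)
  refine hac t ?_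
  rw [Measure.map_apply hTt hA]
  exact measure_mono_null (fun x hx => not_not.2 hx) (ae_iff.1 ht)

/-- a function that expands on `D` pulls null sets back to null sets -/
theorem null_of_expand {D : Set ℝ} {Φ : ℝ → ℝ} {c : ℝ} (hc : 0 < c)
    (h : ∀ x ∈ D, ∀ y ∈ D, x ≤ y → c * (y - x) ≤ Φ y - Φ x) {M : Set ℝ} (hM : volume M = 0) :
    volume {t ∈ D | Φ t ∈ M} = 0 := by
  have hA : AntilipschitzWith (c⁻¹).toNNReal (fun x : D => Φ x) := by
    refine AntilipschitzWith.of_le_mul_dist fun x y => ?_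
    simp only [Subtype.dist_eq, Real.dist_eq]
    rw [Real.coe_toNNReal _ (by positivity), le_inv_mul_iff₀ hc]
    rcases le_total (x : ℝ) y with hxy | hxy
    · have := h x x.2 y y.2 hxy
      rw [abs_sub_comm, abs_of_nonneg (sub_nonneg.2 hxy), abs_sub_comm]
      exact this.trans (le_abs_self _)
    · have := h y y.2 x x.2 hxy
      rw [abs_of_nonneg (sub_nonneg.2 hxy)]
      exact this.trans (le_abs_self _)
  have h1 := hA.hausdorffMeasure_preimage_le (d := 1) zero_le_one M
  rw [hausdorffMeasure_real, hM, mul_zero, nonpos_iff_eq_zero] at h1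
  have h2 := (isometry_subtype_coe (s := D)).hausdorffMeasure_image (d := 1) (Or.inl zero_le_one)
    ((fun x : D => Φ x) ⁻¹' M)
  rw [h1, hausdorffMeasure_real] at h2
  refine measure_mono_null ?_ h2
  rintro t ⟨ht, hM⟩
  exact ⟨⟨t, ht⟩, hM, rfl⟩

/-- The logarithm of the Laplace transform of a nonnegative function that is not a.e. zero pulls
null sets back to null sets. -/
theorem null_lap {α : Type*} [MeasurableSpace α] {m : Measure α} {g : α → ℝ} (hg : Measurable g)
    (h0 : ∀ x, 0 ≤ g x) (hm : m {x | 0 < g x} ≠ 0) {γ C : ℝ} (hγ : γ ≠ 0) {N : Set ℝ}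
    (hN : volume N = 0) :
    volume {t : ℝ | (∫⁻ x, ENNReal.ofReal (exp (t * g x)) ∂m) ≠ ∞ ∧
      C - log (∫⁻ x, ENNReal.ofReal (exp (t * g x)) ∂m).toReal / γ ∈ N} = 0 := by
  set φ : ℝ → ℝ≥0∞ := fun t => ∫⁻ x, ENNReal.ofReal (exp (t * g x)) ∂m with hφ
  set M : Set ℝ := (fun c => exp (γ * (C - c))) '' N with hMdef
  have hM : volume M = 0 :=
    addHaar_image_eq_zero_of_differentiableOn_of_addHaar_eq_zero volume (by fun_prop) hN
  have hφ0 : ∀ t, φ t ≠ 0 := by
    intro t ht
    rw [hφ, lintegral_eq_zero_iff (by fun_prop)] at ht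
    refine hm (measure_mono_null (fun x _ => ?_) (ae_iff.1 ht))
    simp [exp_pos]
  have key : ∀ n : ℕ, volume {t ∈ {t | -(n : ℝ) ≤ t ∧ φ t ≠ ∞} | (φ t).toReal ∈ M} = 0 := by
    intro n
    set c : ℝ≥0∞ := min 1 (∫⁻ x, ENNReal.ofReal (g x * exp (-n * g x)) ∂m) with hc
    have hct : c ≠ ∞ := ne_top_of_le_ne_top ENNReal.one_ne_top (min_le_left _ _)
    have hc0 : c ≠ 0 := by
      refine (lt_min one_pos (pos_iff_ne_zero.2 fun h => ?_)).ne'
      rw [lintegral_eq_zero_iff (by fun_prop)] at h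
      refine hm (measure_mono_null (fun x hx => ?_) (ae_iff.1 h))
      have : 0 < g x * exp (-n * g x) := mul_pos hx (exp_pos _)
      simpa using this
    refine null_of_expand (ENNReal.toReal_pos hc0 hct) ?_ hM
    rintro x ⟨hx, hx'⟩ y ⟨-, hy'⟩ hxy
    have h1 : φ x + ENNReal.ofReal (y - x) * c ≤ φ y := by
      calc φ x + ENNReal.ofReal (y - x) * c
          ≤ φ x + ENNReal.ofReal (y - x) * ∫⁻ z, ENNReal.ofReal (g z * exp (-n * g z)) ∂m := by
            gcongr; exact min_le_right _ _
        _ = ∫⁻ z, (ENNReal.ofReal (exp (x * g z)) +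
              ENNReal.ofReal (y - x) * ENNReal.ofReal (g z * exp (-n * g z))) ∂m := by
            rw [lintegral_add_left (by fun_prop), lintegral_const_mul _ (by fun_prop)]
        _ ≤ φ y := by
            refine lintegral_mono fun z => ?_
            have hz := h0 z
            rw [← ENNReal.ofReal_mul (sub_nonneg.2 hxy),
              ← ENNReal.ofReal_add (exp_pos _).le (by have := sub_nonneg.2 hxy; positivity)]
            refine ENNReal.ofReal_le_ofReal ?_
            have e1 : exp (y * g z) = exp (x * g z) * exp ((y - x) * g z) := by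
              rw [← exp_add]; ring_nf
            have e2 : (y - x) * g z + 1 ≤ exp ((y - x) * g z) := add_one_le_exp _
            have e3 : exp (-n * g z) ≤ exp (x * g z) :=
              exp_le_exp.2 (mul_le_mul_of_nonneg_right hx hz)
            have e4 : 0 ≤ (y - x) * g z := mul_nonneg (sub_nonneg.2 hxy) hz
            have e5 := exp_pos (x * g z)
            rw [e1]
            nlinarith [mul_le_mul_of_nonneg_left e3 e4, mul_le_mul_of_nonneg_left e2 e5.le]
    have h2 := ENNReal.toReal_mono hy' h1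
    rw [ENNReal.toReal_add hx' (ENNReal.mul_ne_top ENNReal.ofReal_ne_top hct), ENNReal.toReal_mul,
      ENNReal.toReal_ofReal (sub_nonneg.2 hxy)] at h2
    linarith
  refine measure_mono_null ?_ (measure_iUnion_null key)
  rintro t ⟨ht, hN'⟩
  obtain ⟨n, hn⟩ := exists_nat_ge (-t)
  refine mem_iUnion.2 ⟨n, ⟨by linarith, ht⟩, _, hN', ?_⟩
  have : γ * (C - (C - log (φ t).toReal / γ)) = log (φ t).toReal := by field_simp; ring
  change exp (γ * (C - (C - log (φ t).toReal / γ))) = _
  rw [this]
  exact exp_log (ENNReal.toReal_pos (hφ0 t) ht)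

end Pool.Agent.Lib.MP_0d9445_pr.Su
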