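import Pool.Agent.Lib.MP_0d9445_pr.Su.Iface
import Pool.Agent.Lib.MP_0d9445_pr.Su.Line
import Pool.Agent.Lib.MP_0d9445_pr.Mu.Path

/-! Shifts of fields: measurability, locality, the Cameron-Martin directions. -/

open MeasureTheory ProbabilityTheory Set Filter Topology Real
open scoped NNReal ENNReal

namespace Pool.Agent.Lib.MP_0d9445_pr.Su

open Mu

theorem continuous_addFn : Continuous fun x : Field × Fn => addFn x.1 x.2 := by
  refine continuous_fst.add (Continuous.comp (g := fun f : Fn =>
    (⟨avg f, continuous_avg f⟩ : Field)) ?_ continuous_snd)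
  refine ContinuousMap.continuous_of_continuous_uncurry _ ?_
  have : Continuous fun x : Fn × (ℝ × ℂ) =>
      ∫ θ in (0 : ℝ)..2 * π, x.1 (circleMap x.2.2 (exp (-x.2.1)) θ) := by
    unfold circleMap
    exact intervalIntegral.continuous_parametric_intervalIntegral_of_continuous' (by fun_prop) _ _
  exact this.const_smul (2 * π)⁻¹

theorem measurable_addFn {α : Type*} [MeasurableSpace α] {h : α → Field} {f : α → Fn}
    (hh : Measurable h) (hf : Measurable f) : Measurable fun a => addFn (h a) (f a) :=
  continuous_addFn.measurable.comp (hh.prodMk hf)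

theorem measurable_cst : Measurable cst := ContinuousMap.continuous_const'.measurable

theorem measurable_shift (g : Fn) : Measurable fun H : Field => addFn H g :=
  measurable_addFn measurable_id measurable_const

theorem measurable_smul_fn (g : Fn) : Measurable fun t : ℝ => t • g :=
  (continuous_id.smul continuous_const).measurable

/-- events read inside `V` do not separate fields with the same averages inside `V` -/
theorem mem_congr {V : Set ℂ} {B : Set Field} (hB : MeasurableSet[sigmaOn id V] B) {H H' : Field}
    (h : ∀ p : ℝ × ℂ, Metric.closedBall p.2 (exp (-p.1)) ⊆ V → H p = H' p) : H ∈ B ↔ H' ∈ B := by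
  let m0 : MeasurableSpace Field :=
    { MeasurableSet' := fun s => (H ∈ s ↔ H' ∈ s)
      measurableSet_empty := Iff.rfl
      measurableSet_compl := fun s hs => not_congr hs
      measurableSet_iUnion := fun f hf => by simp only [mem_iUnion]; exact exists_congr hf }
  have : sigmaOn (id : Field → Field) V ≤ m0 := by
    refine iSup₂_le fun p hp => ?_
    rintro s ⟨t, -, rfl⟩
    change H p ∈ t ↔ H' p ∈ t
    rw [h p hp]
  exact this B hB

theorem avg_congr {V : Set ℂ} {f g : ℂ → ℝ} (h : EqOn f g V) {p : ℝ × ℂ}
    (hp : Metric.closedBall p.2 (exp (-p.1)) ⊆ V) : avg f p = avg g p := by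
  refine circleAverage_congr_sphere fun z hz => h (hp ?_)
  rw [abs_of_pos (exp_pos _)] at hz
  exact Metric.sphere_subset_closedBall hz

theorem mem_addFn_congr {V : Set ℂ} {B : Set Field} (hB : MeasurableSet[sigmaOn id V] B)
    (H : Field) {f g : Fn} (h : EqOn f g V) : addFn H f ∈ B ↔ addFn H g ∈ B :=
  mem_congr hB fun p hp => by rw [addFn_apply, addFn_apply, avg_congr h hp]

variable {Ω Ω' : Type} [MeasurableSpace Ω] [MeasurableSpace Ω']

theorem isGFF_comp {h : Ω → Field} {P : Measure Ω} {P' : Measure Ω'} {φ : Ω' → Ω}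
    (hh : IsGFF h P) (hφ : MeasurePreserving φ P' P) : IsGFF (fun ω => h (φ ω)) P' := by
  have hm : ∀ p, Measurable fun ω => h ω p - h ω 0 := fun p =>
    ((measurable_eval p).comp hh.meas).sub ((measurable_eval 0).comp hh.meas)
  refine ⟨hh.meas.comp hφ.measurable, ⟨fun I => ⟨?_⟩⟩, fun p => ?_, fun p q => ?_⟩
  · have h1 := (hh.gauss.hasGaussianLaw I).isGaussian_map
    have h2 : Measurable fun ω => I.restrict fun p => h ω p - h ω 0 :=
      measurable_pi_lambda _ fun i => hm i
    rw [← hφ.map_eq, Measure.map_map h2 hφ.measurable] at h1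
    exact h1
  · rw [← hh.mean p, ← hφ.map_eq, integral_map hφ.aemeasurable (hm p).aestronglyMeasurable]
  · rw [← hh.cov p q, ← hφ.map_eq]
    exact (integral_map hφ.aemeasurable ((hm p).mul (hm q)).aestronglyMeasurable).symm

theorem IsGFF0.prob {ν : Measure Field} (h : IsGFF0 ν) : IsProbabilityMeasure ν :=
  h.1.gauss.isProbabilityMeasure

/-- the Cameron-Martin directions of `ν` -/
def QI (ν : Measure Field) (g : Fn) : Prop := ∀ t : ℝ, ν.map (fun H => addFn H (t • g)) ≪ ν

variable {ν : Measure Field} {f g : Fn}

theorem QI.smul (h : QI ν g) (a : ℝ) : QI ν (a • g) := fun t => by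
  rw [smul_smul]; exact h _

theorem QI.add (hf : QI ν f) (hg : QI ν g) : QI ν (f + g) := fun t => by
  have : (fun H => addFn H (t • (f + g))) =
      (fun H => addFn H (t • g)) ∘ fun H => addFn H (t • f) := by
    funext H; simp only [Function.comp, addFn_addFn, smul_add]
  rw [this, ← Measure.map_map (measurable_shift _) (measurable_shift _)]
  exact ((hf t).map (measurable_shift _)).trans (hg t)

theorem QI.sub (hf : QI ν f) (hg : QI ν g) : QI ν (f - g) := by
  have := hf.add (hg.smul (-1))
  rwa [neg_one_smul, ← sub_eq_add_neg] at this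

theorem QI.ac (h : QI ν g) (t : ℝ) : ν ≪ ν.map fun H => addFn H (t • g) := by
  have := (h (-t)).map (measurable_shift (t • g))
  rw [Measure.map_map (measurable_shift _) (measurable_shift _)] at this
  have e : ((fun H => addFn H (t • g)) ∘ fun H => addFn H (-t • g)) = id := by
    funext H; simp only [Function.comp, addFn_addFn, neg_smul, neg_add_cancel, addFn_zero, id]
  rwa [e, Measure.map_id] at this

theorem QI.ae (h : QI ν g) {p : Field → Prop} (hp : ∀ᵐ H ∂ν, p H) : ∀ᵐ H ∂ν, p (addFn H g) := by
  have := ae_of_ae_map (measurable_shift _).aemeasurable ((h 1).ae_le hp)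
  simpa only [one_smul] using this

theorem CMpot.qi (h : CMpot ν) (q : ℝ × ℂ) : QI ν (pot q) := h q

/-- for an event that is null for the reference law, the bad constants are a.s. Lebesgue-null -/
theorem ae_null_of_ref [SFinite ν] {B : Set Field} (hB : MeasurableSet B) (h : ref ν B = 0) :
    ∀ᵐ H ∂ν, volume {c : ℝ | addFn H (cst c) ∈ B} = 0 := by
  have hm : Measurable fun x : Field × ℝ => addFn x.1 (cst x.2) :=
    measurable_addFn measurable_fst (measurable_cst.comp measurable_snd)
  rw [ref, Measure.map_apply hm hB, Measure.measure_prod_null (hm hB)] at h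
  filter_upwards [h] with H hH
  exact gaussianReal_absolutelyContinuous' 0 one_ne_zero hH

/-- Weyl scaling of the measure along a line of shifts -/
theorem ae_weyl_line {γ : ℝ} {μ : Field → Measure ℂ} (hμ : IsLQGMeasure γ μ) (hν : IsGFF id ν)
    (g : Fn) : ∀ᵐ H ∂ν, ∀ᵐ s : ℝ, μ (addFn H (s • g)) =
      (μ H).withDensity fun z => ENNReal.ofReal (exp (γ * (s * g z))) := by
  have := hν.gauss.isProbabilityMeasure
  have h1 := hμ.vague Field ν id ⟨measurable_id, fun _ => 0, measurable_const, by
    simpa only [neg_zero, addFn_zero] using hν⟩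
  have h2 := hμ.vague (Field × ℝ) (ν.prod (gaussianReal 0 1)) (fun x => addFn x.1 (x.2 • g))
    ⟨measurable_addFn measurable_fst ((measurable_smul_fn g).comp measurable_snd),
      fun x => x.2 • g, (measurable_smul_fn g).comp measurable_snd, by
        simp only [addFn_addFn, add_neg_cancel, addFn_zero]
        exact isGFF_comp (h := id) (φ := Prod.fst) hν measurePreserving_fst⟩
  filter_upwards [h1, Measure.ae_ae_of_ae_prod h2] with H hH hH'
  filter_upwards [(gaussianReal_absolutelyContinuous' 0 one_ne_zero).ae_le hH'] with s hs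
  exact vague_unique hs (vague_addFn hH (s • g))

end Pool.Agent.Lib.MP_0d9445_pr.Su
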