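import Pool.Agent.Lib.MP_0d9445_pr.Su.Wedge
import Pool.Agent.Lib.MP_0d9445_pr.Su.Sphere

/-! The quantum disk is locally absolutely continuous in the upper half-plane. -/

open MeasureTheory ProbabilityTheory Set Filter Topology Real ComplexConjugate
open scoped NNReal ENNReal

noncomputable section

namespace Pool.Agent.Lib.MP_0d9445_pr.Su

open Mu

/-- trapezoids that increase to the indicator of `Ioo a b` -/
def trap (a b : ℝ) (j : ℕ) (x : ℝ) : ℝ := max 0 (min 1 (j * min (x - a) (b - x)))

theorem trap_cont (a b : ℝ) (j : ℕ) : Continuous (trap a b j) := by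
  unfold trap; fun_prop

theorem trap_zero {a b x : ℝ} (hx : x ∉ Ioo a b) (j : ℕ) : trap a b j x = 0 := by
  refine max_eq_left ((min_le_right _ _).trans (mul_nonpos_of_nonneg_of_nonpos j.cast_nonneg ?_))
  by_contra h
  rw [not_le, lt_min_iff] at h
  exact hx ⟨sub_pos.1 h.1, sub_pos.1 h.2⟩

theorem trap_supp (a b : ℝ) (j : ℕ) : HasCompactSupport (trap a b j) :=
  HasCompactSupport.intro (isCompact_Icc (a := a) (b := b)) fun _ hx =>
    trap_zero (fun h => hx (Ioo_subset_Icc_self h)) j

theorem tendsto_trap (a b : ℝ) (n : Measure ℝ) :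
    Tendsto (fun j => ∫⁻ x, ENNReal.ofReal (trap a b j x) ∂n) atTop (𝓝 (n (Ioo a b))) := by
  rw [← lintegral_indicator_one measurableSet_Ioo]
  refine lintegral_tendsto_of_tendsto_of_monotone
    (fun j => (trap_cont a b j).measurable.ennreal_ofReal.aemeasurable)
    (.of_forall fun x i j hij => ?_) (.of_forall fun x => ?_) <;> by_cases hx : x ∈ Ioo a b
  · have : 0 < min (x - a) (b - x) := lt_min (sub_pos.2 hx.1) (sub_pos.2 hx.2)
    refine ENNReal.ofReal_le_ofReal ?_
    unfold trap
    gcongr
  · simp only [trap_zero hx, le_refl]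
  · have h : 0 < min (x - a) (b - x) := lt_min (sub_pos.2 hx.1) (sub_pos.2 hx.2)
    rw [indicator_of_mem hx]
    refine tendsto_const_nhds.congr' ?_
    filter_upwards [(tendsto_natCast_atTop_atTop.atTop_mul_const h).eventually_ge_atTop 1]
      with j hj
    rw [trap, min_eq_left hj, max_eq_right zero_le_one, ENNReal.ofReal_one, Pi.one_apply]
  · simp only [trap_zero hx, indicator_of_notMem hx, ENNReal.ofReal_zero, tendsto_const_nhds]

/-- vague convergence on the line, tested on countably many functions -/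
def VB (γ : ℝ) (H : Field) (n : Measure ℝ) : Prop := ∀ (a b : ℚ) (j : ℕ),
  Tendsto (fun k : ℕ => ENNReal.ofReal (∫ x : ℝ, trap a b j x *
    exp (γ / 2 * H (k * log 2, x) - γ ^ 2 / 4 * (k * log 2)))) atTop
    (𝓝 (∫⁻ x, ENNReal.ofReal (trap a b j x) ∂n))

variable {γ : ℝ} {H : Field} {n n' : Measure ℝ}

theorem vb_of (h : IsVagueB γ H n) : VB γ H n := fun a b j => by
  have := h.1
  rw [← ofReal_integral_eq_lintegral_ofReal ((trap_cont a b j).integrable_of_hasCompactSupport
    (trap_supp a b j)) (.of_forall fun x => le_max_left _ _)]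
  exact ENNReal.tendsto_ofReal (h.2 _ (trap_cont a b j) (trap_supp a b j))

theorem measurableSet_vb {ν : Field → Measure ℝ} (hν : Measurable ν) :
    MeasurableSet {H | VB γ H (ν H)} := by
  simp only [VB, ofPred_forall]
  refine .iInter fun a => .iInter fun b => .iInter fun j => measurableSet_tendsto_fun (fun k => ?_)
    ((Measure.measurable_lintegral (trap_cont a b j).measurable.ennreal_ofReal).comp hν)
  have := trap_cont a b j
  have h : Continuous fun p : Field × ℝ => trap a b j p.2 *
      exp (γ / 2 * p.1 (k * log 2, p.2) - γ ^ 2 / 4 * (k * log 2)) := by fun_prop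
  exact (h.stronglyMeasurable.integral_prod_right' (ν := volume)).measurable.ennreal_ofReal

theorem vb_scale (h : IsVagueB γ H n) {g : Fn} (h' : VB γ (addFn H g) n') {K η : ℝ} (hη : 0 < η)
    (hg : ∀ z : ℂ, |z.im| ≤ η → g z = K) : n' = ENNReal.ofReal (exp (γ / 2 * K)) • n := by
  have := h.1
  have : IsLocallyFiniteMeasure (ENNReal.ofReal (exp (γ / 2 * K)) • n) :=
    inferInstanceAs (IsLocallyFiniteMeasure ((exp (γ / 2 * K)).toNNReal • n))
  refine (Real.measure_ext_Ioo_rat fun a b => ?_).symm
  refine tendsto_nhds_unique (tendsto_trap a b _) ((tendsto_trap a b n').congr fun j => ?_)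
  rw [lintegral_smul_measure]
  refine tendsto_nhds_unique (h' a b j) ((ENNReal.Tendsto.const_mul (vb_of h a b j)
    (Or.inr ENNReal.ofReal_ne_top)).congr' ?_)
  have hlim : Tendsto (fun k : ℕ => (2 : ℝ)⁻¹ ^ k) atTop (𝓝 0) :=
    tendsto_pow_atTop_nhds_zero_of_lt_one (by norm_num) (by norm_num)
  filter_upwards [hlim.eventually (ge_mem_nhds hη)] with k hk
  rw [← ENNReal.ofReal_mul (exp_pos _).le, ← integral_const_mul]
  congr 2
  funext x
  have e : avg g (k * log 2, x) = K := by
    refine (avg_congr (V := {z | |z.im| ≤ η}) (g := fun _ => K) hg fun z hz => ?_).trans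
      (circleAverage_const _ _ _)
    rw [mem_closedBall_iff_norm, exp_neg_log_two] at hz
    simpa using (Complex.abs_im_le_norm _).trans (hz.trans hk)
  rw [addFn_apply, e, mul_left_comm, ← exp_add]
  congr 2
  ring

/-- a Cameron-Martin direction of the free field that is constant in a disc, and another constant
near the real line -/
theorem exists_dirB {ν : Measure Field} (cm : CMpot ν) {y : ℂ} {r : ℝ} (hr : 0 < r)
    (hy : r < y.im) : ∃ (g : Fn) (k K η : ℝ), QI (ν.map ev) g ∧ k - K ≠ 0 ∧ 0 < η ∧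
      (∀ z ∈ Metric.ball y r, g z = k) ∧ ∀ z : ℂ, |z.im| ≤ η → g z = K := by
  set s := (r + y.im) / 2 with hs
  have h1 : r < s := by linarith
  have h0 := hr.trans h1
  set c := avg (fun y => log (max ‖y‖ 1)) (-log s, y) - avg (fun y => log (max ‖y‖ 1)) (-log r, y)
  have e : ∀ z, (pot (-log s, y) - pot (-log r, y)) z =
      c - log (max ‖z - y‖ s) + log (max ‖z - y‖ r) := fun z => by
    simp only [ContinuousMap.sub_apply, pot_apply, neg_neg, exp_log h0, exp_log hr, c]
    ring
  have e' : ∀ z : ℂ, z.im ≤ y.im - s → (pot (-log s, y) - pot (-log r, y)) z = c := fun z hz => by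
    have h2 := (neg_le_abs _).trans (Complex.abs_im_le_norm (z - y))
    rw [Complex.sub_im] at h2
    rw [e, max_eq_left (by linarith), max_eq_left (by linarith), sub_add_cancel]
  refine ⟨evF (pot (-log s, y) - pot (-log r, y)), (c - log s + log r + c) / √2, (c + c) / √2,
    y.im - s, ((cm.qi _).sub (cm.qi _)).ev, ?_, by linarith, fun z hz => ?_, fun z hz => ?_⟩
  · rw [← sub_div]
    exact div_ne_zero (by linarith [log_lt_log hr h1]) (by positivity)
  · rw [mem_ball_iff_norm] at hz
    have h2 := (neg_le_abs _).trans (Complex.abs_im_le_norm (z - y))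
    rw [Complex.sub_im] at h2
    rw [evF_apply, e' (conj z) (by rw [Complex.conj_im]; linarith), e,
      max_eq_right (hz.trans h1).le, max_eq_right hz.le]
  · rw [evF_apply, e' z (abs_le.1 hz).2, e' (conj z) (by
      rw [Complex.conj_im]; linarith [(abs_le.1 hz).1])]

variable {Ω : Type} [MeasurableSpace Ω] {P : Measure Ω} {h : Ω → Field} {f : Ω → ℂ → ℝ}

/-- SU for the disk -/
theorem disk_locAC_of {Q l : ℝ} (hγ : γ ≠ 0) (hl : l ≠ 0) (hD : IsDisk γ Q l P h f) {V : Set ℂ}
    (hN : FN V) {y : ℂ} {r : ℝ} (hr : 0 < r) (hy : r < y.im) (hV : V ⊆ Metric.ball y r) :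
    LocAC P h f V := by
  obtain ⟨P₀, φ, g, ν, c, hD⟩ := hD
  set len : Field → ℝ≥0∞ := fun H => ∫⁻ x : ℝ, ENNReal.ofReal (exp (γ / 2 * sphereFn γ Q x)) ∂ν H
    with hlen
  obtain ⟨hp, hν, hae, hP, hf⟩ := hD
  have hG := ConeAux.isGFF0_map hp.gff hp.zero
  have := hG.prob
  have hlaw := free_law hp.free hG
  have hφ := hp.free.meas
  have hVδ : ∀ z ∈ V, 2 * ((y.im - r) / 2) ≤ z.im := fun z hz => by
    have h2 := (neg_le_abs _).trans (Complex.abs_im_le_norm (z - y))
    rw [Complex.sub_im] at h2
    linarith [mem_ball_iff_norm.1 (hV hz)]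
  have hcl := closure_minimal (t := {z : ℂ | 2 * ((y.im - r) / 2) ≤ z.im}) hVδ
    (isClosed_le continuous_const Complex.continuous_im)
  obtain ⟨t, ht⟩ := exists_scale (Metric.isBounded_ball.subset hV)
    (fun h0 => by have := hcl h0; simp at this; linarith)
    (fun h0 => by have := hcl h0; simp at this; linarith)
  obtain ⟨s₀, C, hs₀, hsC⟩ := exists_sing (CM.cmPot hG) γ Q t
  obtain ⟨u₀, k, K, η, hu, hk, hη, huk, huK⟩ := exists_dirB (CM.cmPot hG) hr hy
  have hs := (hs₀.smul (√2)⁻¹).ev
  set s := evF ((√2)⁻¹ • s₀) with hsdef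
  rw [← hlaw] at hs hu
  have hw : Measurable fun x : ℝ => ENNReal.ofReal (exp (γ / 2 * sphereFn γ Q x)) := by
    unfold sphereFn; fun_prop
  have ha : Measurable len := (Measure.measurable_lintegral hw).comp hν
  set F : Field → Fn := fun H => s + cst (C - 2 / γ * log ((len H).toReal / l)) with hF
  have hFm : Measurable F := by
    have : Continuous fun a : ℝ => s + cst a := continuous_const.add ContinuousMap.continuous_const'
    exact this.measurable.comp (measurable_const.sub
      ((ha.ennreal_toReal.div_const l).log.const_mul _))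
  refine locAC_free hp (hP ▸ withDensity_absolutelyContinuous _ _) (hFm.fun_comp hφ)
    ((isOpen_lt continuous_const continuous_norm).inter
      ((isOpen_lt continuous_const (continuous_id.sub continuous_const).norm).inter
        (isOpen_lt continuous_norm continuous_const))) ht (by linarith) hVδ
    (.of_forall fun ω x hx => ?_) fun B hB hB0 => ?_
  · have e1 : ‖conj x - 1‖ = ‖x - 1‖ := by
      rw [← Complex.norm_conj, map_sub, map_one, Complex.conj_conj]
    have h1 := hsC x hx.1.le hx.2.1.le hx.2.2.le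
    have h2 := hsC (conj x) (by rw [Complex.norm_conj]; exact hx.1.le) (e1 ▸ hx.2.1.le)
      (by rw [Complex.norm_conj]; exact hx.2.2.le)
    have h3 : √2 * √2 = 2 := mul_self_sqrt zero_le_two
    have h0 : √2 ≠ 0 := by positivity
    have h4 : s x + C = sphereFn γ Q x := by
      rw [sphereFn, e1, Complex.norm_conj, ← sphereFn] at h2
      simp only [hsdef, evF_apply, ContinuousMap.smul_apply, smul_eq_mul]
      field_simp
      linear_combination h1 + h2 + (C - sphereFn γ Q x) * h3
    rw [hf, ← h4]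
    simp only [hF, ContinuousMap.add_apply, ContinuousMap.const_apply, hlen]
    ring
  have hBm : MeasurableSet B := sigmaOn_le measurable_id V B hB
  have hA : MeasurableSet {H | addFn H (F H) ∈ B} := measurable_addFn measurable_id hFm hBm
  have hT : Measurable fun x : Field × ℝ => addFn x.1 (x.2 • u₀) :=
    measurable_addFn measurable_fst ((measurable_smul_fn u₀).comp measurable_snd)
  have := hp.gff.gauss.isProbabilityMeasure
  have := Measure.isProbabilityMeasure_map (μ := P₀) hφ.aemeasurable
  refine (Measure.map_apply hφ hA).symm.trans (null_of_line (T := fun u H => addFn H (u • u₀)) hT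
    hu.ac hA ((ae_map_iff hφ.aemeasurable (measurable_measure_prodMk_left (hT hA)
      (measurableSet_singleton 0))).2 ?_))
  have h1 : ∀ᵐ H ∂P₀.map φ, LN B H := by
    rw [hlaw]
    exact (ae_map_iff measurable_ev.aemeasurable (measurableSet_LN hBm)).2 (hN B hB _ hG hB0)
  have h2 : ∀ᵐ H ∂P₀.map φ, VB γ H (ν H) :=
    (ae_map_iff hφ.aemeasurable (measurableSet_vb hν)).2 (hae.mono fun ω hω => vb_of hω.1)
  have h3 : ∀ᵐ H ∂P₀.map φ, ∀ᵐ u : ℝ, VB γ (addFn H (u • u₀)) (ν (addFn H (u • u₀))) :=
    (Measure.ae_ae_comm (p := fun H (u : ℝ) => VB γ (addFn H (u • u₀)) (ν (addFn H (u • u₀))))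
      (hT (measurableSet_vb hν))).2 (.of_forall fun u => (hu.smul u).ae h2)
  filter_upwards [hae, ae_of_ae_map hφ.aemeasurable (hs.ae h1), ae_of_ae_map hφ.aemeasurable h3]
    with ω hω hN hW
  set N : Set ℝ := {a | addFn (addFn (φ ω) s) (cst a) ∈ B} with hNdef
  set C' := C - 2 / γ * log ((len (φ ω)).toReal / l) with hC'
  have n2 : volume ((fun u => u * (k - K)) ⁻¹' ((fun a => a + C') ⁻¹' N)) = 0 := by
    rw [Real.volume_preimage_mul_right hk, measure_preimage_add_right, hN, mul_zero]
  refine measure_mono_null (fun u hu => ?_) (measure_union_null (ae_iff.1 hW) n2)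
  refine or_iff_not_imp_left.2 fun hWu => ?_
  have e1 : len (addFn (φ ω) (u • u₀)) = ENNReal.ofReal (exp (γ / 2 * (u * K))) * len (φ ω) := by
    simp only [hlen]
    rw [vb_scale hω.1 (not_not.1 hWu) (K := u * K) hη fun z hz => by simp [huK z hz],
      lintegral_smul_measure, smul_eq_mul]
  have hu' : addFn (addFn (φ ω) (u • u₀)) (F (addFn (φ ω) (u • u₀))) ∈ B := hu
  rw [addFn_addFn] at hu'
  simp only [hNdef, mem_preimage, mem_ofPred_eq, addFn_addFn]
  refine (mem_addFn_congr hB _ fun x hx => ?_).1 hu'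
  simp only [hF, ContinuousMap.add_apply, ContinuousMap.smul_apply, ContinuousMap.const_apply,
    smul_eq_mul, huk x (hV hx), e1, hC', ENNReal.toReal_mul, ENNReal.toReal_ofReal (exp_pos _).le]
  rw [mul_div_assoc, log_mul (exp_pos _).ne'
    (div_ne_zero (ENNReal.toReal_pos hω.2.1.ne' hω.2.2.ne).ne' hl), log_exp]
  field_simp
  ring

end Pool.Agent.Lib.MP_0d9445_pr.Su
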