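import Pool.Agent.Lib.MP_0d9445_pr.Su.Free
import Pool.Agent.Lib.MP_0d9445_pr.Su.Cone
import Pool.Agent.Lib.MP_0d9445_pr.Bd.Stmt

/-! The law of the free field; local absolute continuity read through the free field. -/

open MeasureTheory ProbabilityTheory Set Filter Topology Real ComplexConjugate LQ.Gauss
open scoped NNReal ENNReal RealInnerProductSpace

noncomputable section

namespace Pool.Agent.Lib.MP_0d9445_pr.Su

open Mu

theorem gffCov_conj (p q : ℝ × ℂ) : gffCov (p.1, conj p.2) (q.1, conj q.2) = gffCov p q := by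
  unfold gffCov
  rw [← avg_conj]
  congr 1
  funext x
  rw [← avg_conj]
  congr 1
  funext y
  rw [← map_sub, Complex.norm_conj, Complex.norm_conj, Complex.norm_conj]

variable {Ω : Type} [MeasurableSpace Ω] {P P₀ : Measure Ω} {h φ : Ω → Field} {g : Ω → ℂ → ℝ}
  {ν : Measure Field}

/-- the free field has the law of the even part of the GFF -/
theorem free_law (hφ : IsFreeGFF φ P) (hν : IsGFF0 ν) : P.map φ = ν.map ev := by
  obtain ⟨K, _, _, _, W, f, hW, e, hc⟩ := CM.exists_iso' hφ.gauss hφ.mean
  obtain ⟨K', _, _, _, W', f', hW', e', hc'⟩ := CM.gff0_iso hν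
  have hm : Measurable fun (H : Field) p => H p := measurable_pi_lambda _ measurable_eval
  refine CM.cm_measure_ext ?_
  rw [Measure.map_map hm hφ.meas, Measure.map_map hm measurable_ev]
  refine hW.version_map_eq hW' (X := fun p ω => φ ω p) (X' := fun p H => ev H p)
    (f' := fun p => (√2)⁻¹ • (f' p + f' (p.1, conj p.2)))
    (fun p => (measurable_eval p).comp hφ.meas) e
    (fun p => (measurable_eval p).comp measurable_ev) (fun p => ?_) fun p q => ?_
  · filter_upwards [e' p, e' (p.1, conj p.2), hW'.add (f' p) (f' (p.1, conj p.2)),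
      hW'.smul (√2)⁻¹ (f' p + f' (p.1, conj p.2))] with H a b c d
    rw [d, c, ← a, ← b, ev_apply, div_eq_inv_mul]
  · have h2 : √2 * √2 = 2 := mul_self_sqrt zero_le_two
    have h0 : √2 ≠ 0 := by positivity
    have h3 := gffCov_conj p (q.1, conj q.2)
    simp only [Complex.conj_conj] at h3
    rw [hc, hφ.cov, real_inner_smul_left, real_inner_smul_right, inner_add_left, inner_add_right,
      inner_add_right, hc', hc', hc', hc', gffCov_conj, h3, freeCov]
    field_simp
    linear_combination (gffCov p q + gffCov p (q.1, conj q.2)) * h2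

theorem evF_smul (t : ℝ) (u : Fn) : evF (t • u) = t • evF u := by
  ext z
  simp only [evF_apply, ContinuousMap.smul_apply, smul_eq_mul]
  ring

theorem QI.ev {u : Fn} (hu : QI ν u) : QI (ν.map ev) (evF u) := fun t => by
  have e : (fun H => addFn H (t • evF u)) ∘ Su.ev = Su.ev ∘ fun H => addFn H (t • u) := by
    funext H; simp only [Function.comp, ev_addFn, evF_smul]
  rw [Measure.map_map (measurable_shift _) measurable_ev, e,
    ← Measure.map_map measurable_ev (measurable_shift _)]
  exact (hu t).map measurable_ev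

/-- Local absolute continuity follows from the null sets of the free field plus `F`. -/
theorem locAC_free (hp : IsFreePair P₀ h φ g) (hac : P ≪ P₀) {F : Ω → Fn} (hF : Measurable F)
    {V W : Set ℂ} (hW : IsOpen W) (hVW : closure V ⊆ W) {δ : ℝ} (hδ : 0 < δ)
    (hV : ∀ z ∈ V, 2 * δ ≤ z.im) {f : Ω → ℂ → ℝ}
    (hf : ∀ᵐ ω ∂P, ∀ z ∈ W, f ω z = g ω z + F ω z)
    (h0 : ∀ B, MeasurableSet[sigmaOn id V] B → ref (P₀.map h) B = 0 →
      P₀ {ω | addFn (φ ω) (F ω) ∈ B} = 0) : LocAC P h f V := by
  let cl : ℂ → ℂ := fun z => z + ((max (δ - z.im) 0 : ℝ) : ℂ) * Complex.I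
  have hcl : ∀ z, cl z ∈ UH := fun z => by
    have : (cl z).im = z.im + max (δ - z.im) 0 := by simp [cl]
    change 0 < (cl z).im
    rw [this]
    linarith [le_max_left (δ - z.im) 0]
  have hcl' : ∀ z : ℂ, δ ≤ z.im → cl z = z := fun z hz => by
    simp [cl, max_eq_right (sub_nonpos.2 hz)]
  let G : Ω → Fn := fun ω => ⟨fun z => g ω (cl z), (hp.cont ω).comp_continuous (by fun_prop) hcl⟩
  have hG : Measurable G := CM.measurable_cm_iff.2 fun z => hp.meas _
  have hft : Measurable fun ω => G ω + F ω := hG.add hF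
  have hpair := hp.gff.meas.prodMk hft
  have hfst : (P₀.map fun ω => (h ω, G ω + F ω)).fst = P₀.map h := Measure.fst_map_prodMk hft
  have hVδ : closure V ⊆ {z : ℂ | δ < z.im} := fun z hz => by
    have := closure_minimal (t := {z : ℂ | 2 * δ ≤ z.im}) hV
      (isClosed_le continuous_const Complex.continuous_im) hz
    change δ < _
    linarith [show 2 * δ ≤ z.im from this]
  refine ⟨fun ω => G ω + F ω, W ∩ {z | δ < z.im}, P₀.map fun ω => (h ω, G ω + F ω), hft,
    hW.inter (isOpen_lt continuous_const Complex.continuous_im), subset_inter hVW hVδ,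
    hf.mono fun ω hω z hz => ?_, hfst.symm ▸ ConeAux.isGFF0_map hp.gff hp.zero, hac.map hpair,
    fun B hB hB0 => ?_⟩
  · rw [hω z hz.1, ← hcl' z hz.2.le]
    change g ω (cl (cl z)) + _ = _
    simp only [hcl' z hz.2.le]
  rw [hfst] at hB0
  refine (Measure.map_apply hpair (continuous_addFn.measurable
    (sigmaOn_le measurable_id V B hB))).trans ((measure_congr ?_).trans (h0 B hB hB0))
  filter_upwards [hp.eq] with ω hω
  refine propext (mem_congr hB fun p hpV => ?_)
  have h1 : exp (-p.1) < p.2.im := by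
    have := hV (p.2 - (exp (-p.1) : ℝ) * Complex.I) (hpV (by
      simp [abs_of_pos (exp_pos _), -Complex.ofReal_exp]))
    simp only [Complex.sub_im, Complex.mul_im, Complex.ofReal_re, Complex.I_im, mul_one,
      Complex.ofReal_im, Complex.I_re, mul_zero, add_zero] at this
    linarith
  have h2 : avg (G ω) p = avg (g ω) p := avg_congr (V := V)
    (fun z hz => congrArg (g ω) (hcl' z (by linarith [hV z hz]))) hpV
  change addFn (h ω) (G ω + F ω) p = addFn (φ ω) (F ω) p
  rw [← addFn_addFn, addFn_apply, addFn_apply, addFn_apply, hω p h1, h2]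

end Pool.Agent.Lib.MP_0d9445_pr.Su
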