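import Pool.Agent.Lib.MP_0d9445_pr.Su.Cone

/-! Replacing the circle averages about the origin, for times in `[0, S]`, by an independent
Brownian motion does not change the law of the field. -/

open MeasureTheory ProbabilityTheory Set Filter Topology Real LQ.Gauss
open scoped NNReal ENNReal RealInnerProductSpace

noncomputable section

namespace Pool.Agent.Lib.MP_0d9445_pr.Su

open Mu BM ConeAux

/-- the function `x ↦ X (s x) - H (s x, 0)`, where `s x` is `-log ‖x‖` clamped to `[0, S]` -/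
def swapFn (S : ℝ≥0) (X : ℝ≥0 → ℝ) (H : Field) : Fn :=
  (toCts X).comp (tm 1 0 S) - (rad 1 0 H).comp (tm 1 0 S)

variable {S : ℝ≥0}

theorem tm_coe (x : ℂ) : (tm 1 0 S x : ℝ) = max (-log (max ‖x‖ (exp (-S)))) 0 := by
  change (((1 : ℝ) * -log (max ‖x‖ (exp (-S))) - ((0 : ℝ≥0) : ℝ)).toNNReal : ℝ) = _
  rw [Real.coe_toNNReal', one_mul, NNReal.coe_zero, sub_zero]

theorem tm_le (x : ℂ) : tm 1 0 S x ≤ S := by
  rw [← NNReal.coe_le_coe, tm_coe]
  refine max_le ?_ S.coe_nonneg
  have := log_le_log (exp_pos (-(S : ℝ))) (le_max_right ‖x‖ _)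
  rw [log_exp] at this
  linarith

/-- on the annulus the clamped time is `-log ‖x‖` -/
theorem tm_of_mem {x : ℂ} (h1 : exp (-S) ≤ ‖x‖) (h2 : ‖x‖ ≤ 1) : (tm 1 0 S x : ℝ) = -log ‖x‖ := by
  rw [tm_coe, max_eq_left h1, max_eq_left (neg_nonneg.2 (log_nonpos (norm_nonneg x) h2))]

theorem tm_of_le {x : ℂ} (h1 : ‖x‖ ≤ exp (-S)) : tm 1 0 S x = S := by
  rw [← NNReal.coe_inj, tm_coe, max_eq_right h1, log_exp, neg_neg, max_eq_left S.coe_nonneg]

theorem tm_of_ge {x : ℂ} (h1 : 1 ≤ ‖x‖) : tm 1 0 S x = 0 := by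
  have h2 : exp (-(S : ℝ)) ≤ ‖x‖ := (exp_le_one_iff.2 (neg_nonpos.2 S.coe_nonneg)).trans h1
  rw [← NNReal.coe_inj, tm_coe, max_eq_left h2, max_eq_right (neg_nonpos.2 (log_nonneg h1)),
    NNReal.coe_zero]

theorem rad_apply (H : Field) (u : ℝ≥0) : rad 1 0 H u = H (u, 0) := by
  change H (1 * ((0 + u : ℝ≥0) : ℝ), 0) = _
  rw [one_mul, zero_add]

theorem swapFn_apply {X : ℝ≥0 → ℝ} (hX : Continuous X) (H : Field) (x : ℂ) :
    swapFn S X H x = X (tm 1 0 S x) - H (tm 1 0 S x, 0) := by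
  rw [← rad_apply, ← toCts_apply hX]
  rfl

theorem measurable_swapFn : Measurable fun x : (ℝ≥0 → ℝ) × Field => swapFn S x.1 x.2 := by
  have : Continuous fun x : Fn × Fn => x.1 - x.2 := by fun_prop
  exact this.measurable.comp ((measurable_J.comp (measurable_toCts.comp measurable_fst)).prodMk
    (measurable_J.comp (measurable_rad.comp measurable_snd)))

namespace SwapAux

theorem pot_tm {u : ℝ≥0} (hu : u ≤ S) (x : ℂ) : pot (u, 0) x = min (tm 1 0 S x : ℝ) u := by
  have h1 : avg (fun y => log (max ‖y‖ 1)) (u, 0) = max (-(u : ℝ)) 0 := avg_of_norm fun y hy => by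
    rw [hy, log_max (exp_pos _) one_pos, log_exp, log_one]
  have h2 : exp (-(S : ℝ)) ≤ exp (-(u : ℝ)) := exp_le_exp.2 (neg_le_neg hu)
  have h3 : exp (-(u : ℝ)) ≤ 1 := exp_le_one_iff.2 (neg_nonpos.2 u.coe_nonneg)
  have h0 : 0 < max ‖x‖ (exp (-(S : ℝ))) := lt_max_of_lt_right (exp_pos _)
  have e1 : max ‖x‖ 1 = max (max ‖x‖ (exp (-(S : ℝ)))) 1 := by
    rw [max_assoc, max_eq_right (h2.trans h3)]
  have e2 : max ‖x‖ (exp (-(u : ℝ))) = max (max ‖x‖ (exp (-(S : ℝ)))) (exp (-(u : ℝ))) := by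
    rw [max_assoc, max_eq_right h2]
  change log (max ‖x‖ 1) + avg (fun y => log (max ‖y‖ 1)) (u, 0) -
    log (max ‖x - 0‖ (exp (-(u : ℝ)))) = _
  rw [h1, sub_zero, tm_coe, e1, e2, log_max h0 one_pos, log_max h0 (exp_pos _), log_exp, log_one]
  have := u.coe_nonneg
  generalize log (max ‖x‖ (exp (-(S : ℝ)))) = a
  simp only [max_def, min_def]
  split_ifs <;> linarith

variable {Ω : Type} [MeasurableSpace Ω] {P : Measure Ω} {h : Ω → Field}

theorem indep_aux (hm : Measurable h) {K : Type*} [NormedAddCommGroup K] [InnerProductSpace ℝ K]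
    [CompleteSpace K] {W : K → Ω → ℝ} {f : ℝ × ℂ → K} (hW : IsIso W P)
    (hf' : ∀ p, (fun ω => h ω p) =ᵐ[P] W (f p)) (hin' : ∀ p q, ⟪f p, f q⟫ = gffCov p q) :
    IndepFun (fun ω (p : ℝ × ℂ) => h ω p - avg ((rad 1 0 (h ω)).comp (tm 1 0 S)) p)
      (fun ω (u : ℝ≥0) => h ω ((min u S : ℝ≥0), 0)) P := by
  have hc : Continuous fun s : ℝ => f (s, 0) := by
    rw [continuous_iff_continuousAt]
    intro s
    rw [ContinuousAt, tendsto_iff_norm_sub_tendsto_zero]
    have e : ∀ r, ‖f (r, 0) - f (s, 0)‖ = √(kap r r - 2 * kap r s + kap s s) := fun r => by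
      rw [← sqrt_sq (norm_nonneg _), norm_sub_sq_real, ← real_inner_self_eq_norm_sq,
        ← real_inner_self_eq_norm_sq, hin', hin', hin', gffCov_rad, gffCov_rad, gffCov_rad]
    have : Continuous fun r => √(kap r r - 2 * kap r s + kap s s) := by unfold kap; fun_prop
    have := this.tendsto s
    rw [show kap s s - 2 * kap s s + kap s s = 0 by ring, sqrt_zero] at this
    simpa only [e] using this
  let τ : ℝ × ℂ → ℝ → ℝ := fun p θ => tm 1 0 S (circleMap p.2 (exp (-p.1)) θ)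
  have hτ : ∀ p, Continuous (τ p) := fun p => by
    have := continuous_circleMap p.2 (exp (-p.1))
    fun_prop
  have hk : ∀ p, IntegrableOn (fun θ => f (τ p θ, 0)) (Ioc 0 (2 * π)) := fun p =>
    ((hc.comp (hτ p)).intervalIntegrable 0 (2 * π)).1
  refine indep_congr (hW.indepFun
    (f := fun p : ℝ × ℂ => f p - (2 * π)⁻¹ • ∫ θ in Ioc 0 (2 * π), f (τ p θ, 0))
    (g := fun u : ℝ≥0 => f ((min u S : ℝ≥0), 0)) fun p u => ?_) (fun p => ?_)
    fun u => (hf' _).symm
  · rw [inner_sub_left, real_inner_smul_left, real_inner_comm _ (∫ θ in Ioc 0 (2 * π), _),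
      ← integral_inner (hk p), hin', CM.gffCov_eq, avg, circleAverage_def,
      intervalIntegral.integral_of_le (by positivity), smul_eq_mul, sub_eq_zero]
    congr 1
    refine integral_congr_ae (Eventually.of_forall fun θ => ?_)
    have := kap_sign (Or.inl rfl) (tm 1 0 S (circleMap p.2 (exp (-p.1)) θ)).coe_nonneg
      (min u S).coe_nonneg
    rw [one_mul, one_mul] at this
    simp only [τ]
    rw [real_inner_comm, hin', gffCov_rad, pot_tm (min_le_right u S), this]
  · have h1 := CM.iso_integral hW (hk p) (X := fun θ ω => h ω (τ p θ, 0))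
      ((continuous_eval (F := Field)).measurable.comp ((hm.comp measurable_snd).prodMk
        (((hτ p).measurable.comp measurable_fst).prodMk measurable_const))) fun θ => hf' _
    filter_upwards [h1, hf' p, hW.sub (f p) ((2 * π)⁻¹ • ∫ θ in Ioc 0 (2 * π), f (τ p θ, 0)),
      hW.smul (2 * π)⁻¹ (∫ θ in Ioc 0 (2 * π), f (τ p θ, 0))] with ω e1 e2 e3 e4
    rw [e3, e4, ← e1, ← e2, avg, circleAverage_def, intervalIntegral.integral_of_le (by positivity)]
    simp only [ContinuousMap.comp_apply, rad_apply]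
    rfl

theorem avg_sub (a b : Fn) (p : ℝ × ℂ) : avg (a - b : Fn) p = avg a p - avg b p :=
  circleAverage_fun_sub a.continuous.continuousOn.circleIntegrable'
    b.continuous.continuousOn.circleIntegrable'

end SwapAux

open SwapAux

variable {Ω : Type} [MeasurableSpace Ω] {P : Measure Ω} {h : Ω → Field} {b : ℝ≥0 → Ω → ℝ}

theorem measurable_swap (hh : Measurable h) (hbm : ∀ t, Measurable (b t)) (S : ℝ≥0) :
    Measurable fun ω => addFn (h ω) (swapFn S (fun t => b t ω) (h ω)) :=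
  measurable_addFn hh (measurable_swapFn.comp ((measurable_pi_lambda _ hbm).prodMk hh))

/-- the law identity -/
theorem map_swap (hh : IsGFF h P) (h0 : ∀ᵐ ω ∂P, h ω 0 = 0) (hbm : ∀ t, Measurable (b t))
    (hb : IsBrownianReal b P) (hi : IndepFun (fun ω t => b t ω) h P) (S : ℝ≥0) :
    P.map (fun ω => addFn (h ω) (swapFn S (fun t => b t ω) (h ω))) = P.map h := by
  have := hh.gauss.isProbabilityMeasure
  let L : Field → ℝ × ℂ → ℝ := fun H p => H p - avg ((rad 1 0 H).comp (tm 1 0 S)) p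
  have hL : Measurable L := measurable_pi_lambda _ fun p =>
    (measurable_eval _).sub ((measurable_avg _).comp (measurable_J.comp measurable_rad))
  let Ψ : (ℝ × ℂ → ℝ) × (ℝ≥0 → ℝ) → ℝ × ℂ → ℝ := fun x p =>
    x.1 p + avg ((toCts x.2).comp (tm 1 0 S)) p
  have hΨ : Measurable Ψ := measurable_pi_lambda _ fun p =>
    ((measurable_pi_apply p).comp measurable_fst).add ((measurable_avg _).comp
      (measurable_J.comp (measurable_toCts.comp measurable_snd)))
  have hΨ' : ∀ (l : ℝ × ℂ → ℝ) (y : ℝ≥0 → ℝ), Continuous y → ∀ p,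
      Ψ (l, fun u => y (min u S)) p = l p + avg ((toCts y).comp (tm 1 0 S)) p := fun l y hy p => by
    have : (toCts fun u => y (min u S)).comp (tm 1 0 S) = (toCts y).comp (tm 1 0 S) := by
      ext x
      rw [ContinuousMap.comp_apply, ContinuousMap.comp_apply, toCts_apply hy,
        toCts_apply (w := fun u => y (min u S)) (by fun_prop), min_eq_left (tm_le x)]
    simp only [Ψ, this]
  have m1 : Measurable fun (y : ℝ≥0 → ℝ) (u : ℝ≥0) => y (min u S) := by fun_prop
  have hR0 : Measurable fun ω (u : ℝ≥0) => h ω (u, 0) :=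
    measurable_pi_lambda _ fun u => (measurable_eval _).comp hh.meas
  have hX0 : Measurable fun ω t => b t ω := measurable_pi_lambda _ hbm
  have hLh : Measurable fun ω => L (h ω) := hL.comp hh.meas
  have hpre : IsPreBrownianReal (fun (t : ℝ≥0) ω => h ω (t, 0)) P := by
    simpa only [one_mul] using
      (decomp (t₀ := 0) (t₁ := 0) hh h0 (Or.inl rfl) (empty_subset _)).1
  have hI : IndepFun (fun ω => L (h ω)) (fun ω (u : ℝ≥0) => h ω ((min u S : ℝ≥0), 0)) P := by
    obtain ⟨K, hK, W, f, hW, hf, hin⟩ := CM.exists_iso hh.gauss hh.mean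
    refine indep_aux hh.meas hW (f := f) (fun p => ?_) fun p q => (hin p q).trans (hh.cov p q)
    filter_upwards [hf p, h0] with ω h1 h2
    rw [← h1, h2, sub_zero]
  have hR : Measurable fun ω (u : ℝ≥0) => h ω ((min u S : ℝ≥0), 0) := m1.comp hR0
  have hX : Measurable fun ω (u : ℝ≥0) => b (min u S) ω := m1.comp hX0
  have e1 := hI.map_prod_eq_prod_map_map hLh.aemeasurable hR.aemeasurable
  have e2 := (hi.comp m1 hL).symm.map_prod_eq_prod_map_map hLh.aemeasurable hX.aemeasurable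
  have e3 : P.map (fun ω (u : ℝ≥0) => b (min u S) ω) =
      P.map fun ω (u : ℝ≥0) => h ω ((min u S : ℝ≥0), 0) := by
    have := congrArg (Measure.map fun (y : ℝ≥0 → ℝ) (u : ℝ≥0) => y (min u S))
      (WienerAux.law_unique hb.toIsPreBrownianReal hpre hX0 hR0)
    rwa [Measure.map_map m1 hX0, Measure.map_map m1 hR0] at this
  have e4 : P.map (fun ω => (L (h ω), fun u : ℝ≥0 => b (min u S) ω)) =
      P.map fun ω => (L (h ω), fun u : ℝ≥0 => h ω ((min u S : ℝ≥0), 0)) :=
    e2.trans ((congrArg _ e3).trans e1.symm)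
  have m2 : Measurable fun (g : Field) p => g p := measurable_pi_lambda _ measurable_eval
  refine CM.cm_measure_ext ?_
  rw [Measure.map_map m2 (measurable_swap hh.meas hbm S), Measure.map_map m2 hh.meas]
  have e5 := congrArg (Measure.map Ψ) e4
  rw [Measure.map_map hΨ (hLh.prodMk hX), Measure.map_map hΨ (hLh.prodMk hR)] at e5
  refine (Measure.map_congr ?_).trans (e5.trans (congrArg (Measure.map · P) (funext fun ω => ?_)))
  · filter_upwards [hb.cont] with ω hω
    funext p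
    rw [Function.comp_apply, Function.comp_apply, hΨ' _ (fun t => b t ω) hω, addFn_apply, swapFn,
      avg_sub]
    simp only [L]
    ring
  · funext p
    have : toCts (fun u : ℝ≥0 => h ω (u, 0)) = rad 1 0 (h ω) := by
      rw [← funext (rad_apply (h ω))]
      exact toCts_coe _
    rw [Function.comp_apply, Function.comp_apply,
      hΨ' _ (fun u : ℝ≥0 => h ω (u, 0)) (by fun_prop), this]
    simp only [L, sub_add_cancel]

/-- the swapped field is again a GFF with value `0` at `0` -/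
theorem cone_swap (hh : IsGFF h P) (h0 : ∀ᵐ ω ∂P, h ω 0 = 0) (hbm : ∀ t, Measurable (b t))
    (hb : IsBrownianReal b P) (hi : IndepFun (fun ω t => b t ω) h P) (S : ℝ≥0) :
    IsGFF (fun ω => addFn (h ω) (swapFn S (fun t => b t ω) (h ω))) P ∧
      ∀ᵐ ω ∂P, addFn (h ω) (swapFn S (fun t => b t ω) (h ω)) 0 = 0 := by
  have hG := isGFF0_map hh h0
  have hm := measurable_swap hh.meas hbm S
  rw [← map_swap hh h0 hbm hb hi S] at hG
  exact ⟨isGFF_comp hG.1 ⟨hm, rfl⟩, ae_of_ae_map hm.aemeasurable hG.2⟩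

/-- For the cone: for every `S` there is a GFF `g` with value `0` at `0`, differing from `h` by a
continuous function `k`, with `f = k + γ log (1 / ‖x‖)` on the annulus `exp (-S) ≤ ‖x‖ ≤ 1`. -/
theorem IsCone_swap {γ Q : ℝ} {f : Ω → ℂ → ℝ} (hC : IsCone γ Q P h f) (S : ℝ≥0) :
    ∃ k : Ω → Fn, Measurable k ∧ P.map (fun ω => addFn (h ω) (k ω)) = P.map h ∧
      IsGFF (fun ω => addFn (h ω) (k ω)) P ∧ (∀ᵐ ω ∂P, addFn (h ω) (k ω) 0 = 0) ∧
      ∀ᵐ ω ∂P, ∀ x : ℂ, exp (-S) ≤ ‖x‖ → ‖x‖ ≤ 1 → f ω x = k ω x + γ * -log ‖x‖ := by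
  obtain ⟨hh, h0, b, c, hbm, -, hbB, -, -, hi, hf⟩ := hC
  have hi' : IndepFun (fun ω t => b t ω) h P := hi.comp measurable_fst measurable_id
  refine ⟨fun ω => swapFn S (fun t => b t ω) (h ω),
    measurable_swapFn.comp ((measurable_pi_lambda _ hbm).prodMk hh.meas),
    map_swap hh h0 hbm hbB hi' S, (cone_swap hh h0 hbm hbB hi' S).1,
    (cone_swap hh h0 hbm hbB hi' S).2, ?_⟩
  filter_upwards [hbB.cont] with ω hω x h1 h2
  have e := tm_of_mem h1 h2
  rw [hf, swapFn_apply hω, radial, if_pos (e ▸ NNReal.coe_nonneg _), ← e, Real.toNNReal_coe]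
  ring

end Pool.Agent.Lib.MP_0d9445_pr.Su
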