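import Pool.Agent.Lib.MP_0d9445_pr.Su.Basic
import Pool.Agent.Lib.MP_0d9445_pr.EN.E8
import Pool.Agent.Lib.MP_0d9445_pr.CR.Wt

/-! Lipschitz shifts keep the null sets of the fine field in small squares. -/

open MeasureTheory ProbabilityTheory Set Filter Topology Real
open scoped NNReal ENNReal

namespace Pool.Agent.Lib.MP_0d9445_pr.Su

open Mu
open CR (osq csq sc lip)

theorem shift_on {V : Set ℂ} {B : Set Field} (hB : MeasurableSet[sigmaOn id V] B) (g : Fn) :
    MeasurableSet[sigmaOn id V] {H | addFn H g ∈ B} := EN.measurable_addFn_on V g hB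

theorem null_step (L : Layers) : ∃ m : ℕ, ∀ u : Fn, |u 0| ≤ 1 → LipschitzOnWith 1 u (csq 0 1) →
    ∀ B, MeasurableSet[sigmaOn id (osq 0 (3 * sc m))] B → L.P {ω | L.H 0 ω ∈ B} = 0 →
      L.P {ω | addFn (L.H 0 ω) u ∈ B} = 0 := by
  obtain ⟨m, hm⟩ := L.cm0 2 0 1 1 one_lt_two zero_le_one one_pos
  refine ⟨m, fun u h1 h2 B hB h0 => ?_⟩
  have hBm : MeasurableSet B := sigmaOn_le measurable_id _ B hB
  have h := (hm m le_rfl 0 u h1 (by simpa using h2) (B.indicator 1)
    (@Measurable.indicator _ _ B 1 (sigmaOn id _) _ _ (@measurable_const _ _ _ (sigmaOn id _) _) hB)).1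
  have e0 : ∀ᵐ ω ∂L.P, B.indicator (1 : Field → ℝ≥0∞) (L.H 0 ω) = 0 := by
    filter_upwards [measure_eq_zero_iff_ae_notMem.1 h0] with ω hω
    exact indicator_of_notMem hω _
  have e1 : ∫⁻ ω, B.indicator (1 : Field → ℝ≥0∞) (L.H 0 ω) ∂L.P = 0 :=
    (lintegral_congr_ae e0).trans lintegral_zero
  have e2 : ∫⁻ ω, ENNReal.ofReal (exp (-(0 * (2 - 1) * ∑ j ∈ Finset.range m, L.eta j ω 0))) *
      B.indicator (1 : Field → ℝ≥0∞) (L.H 0 ω) ^ (2 : ℝ) ∂L.P = 0 := by
    refine (lintegral_congr_ae (e0.mono fun ω hω => ?_)).trans lintegral_zero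
    simp only [hω]
    simp
  rw [e1, e2, ENNReal.zero_rpow_of_pos (by norm_num), mul_zero, mul_zero, add_zero,
    nonpos_iff_eq_zero] at h
  rw [← h]
  exact (lintegral_indicator_one (measurable_addFn (L.meas_H 0) measurable_const hBm)).symm

theorem null_lip_zero (L : Layers) : ∃ m : ℕ, ∀ u : Fn, lip u (csq 0 1) ≠ ∞ →
    ∀ B, MeasurableSet[sigmaOn id (osq 0 (3 * sc m))] B → L.P {ω | L.H 0 ω ∈ B} = 0 →
      L.P {ω | addFn (L.H 0 ω) u ∈ B} = 0 := by
  obtain ⟨m, hm⟩ := null_step L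
  refine ⟨m, fun u hu B hB h0 => ?_⟩
  have hK := CR.lipschitzOnWith_of_lip_le (ENNReal.coe_toNNReal hu).ge
  set K := (lip u (csq 0 1)).toNNReal
  obtain ⟨N, hN⟩ := exists_nat_gt (max |u 0| K)
  have hN0 : (0 : ℝ) < N := ((abs_nonneg _).trans (le_max_left _ _)).trans_lt hN
  set v : Fn := (N : ℝ)⁻¹ • u with hv
  have h1 : |v 0| ≤ 1 := by
    rw [hv, ContinuousMap.smul_apply, smul_eq_mul, abs_mul, abs_of_pos (inv_pos.2 hN0),
      inv_mul_le_one₀ hN0]
    exact (le_max_left _ _).trans hN.le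
  have h2 : LipschitzOnWith 1 v (csq 0 1) := by
    refine LipschitzOnWith.of_dist_le_mul fun x hx y hy => ?_
    have h3 := hK.dist_le_mul x hx y hy
    have h4 : (K : ℝ) ≤ N := (le_max_right _ _).trans hN.le
    rw [hv, ContinuousMap.smul_apply, ContinuousMap.smul_apply, dist_smul₀, Real.norm_eq_abs,
      abs_of_pos (inv_pos.2 hN0), NNReal.coe_one, one_mul, inv_mul_le_iff₀ hN0]
    exact h3.trans (mul_le_mul_of_nonneg_right h4 dist_nonneg)
  have key : ∀ k : ℕ, L.P {ω | addFn (L.H 0 ω) ((k : ℝ) • v) ∈ B} = 0 := by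
    intro k
    induction k with
    | zero => simpa only [Nat.cast_zero, zero_smul, addFn_zero] using h0
    | succ k ih =>
      have := hm v h1 h2 _ (shift_on hB ((k : ℝ) • v)) ih
      simpa only [mem_ofPred_eq, addFn_addFn, Nat.cast_succ, add_smul, one_smul,
        add_comm v] using this
  have := key N
  rwa [hv, smul_smul, mul_inv_cancel₀ hN0.ne', one_smul] at this

theorem measurable_affine_on (Q : ℝ) {a : ℂ} (ha : a ≠ 0) (b : ℂ) {U U' : Set ℂ}
    (h : ∀ z ∈ U', a * z + b ∈ U) :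
    @Measurable Field Field (sigmaOn id U) (sigmaOn id U') (affine Q a b) := by
  refine measurable_iff_comap_le.2 ?_
  simp only [sigmaOn, MeasurableSpace.comap_iSup, MeasurableSpace.comap_comp]
  refine iSup₂_le fun p hp => le_iSup₂_of_le (f := fun (p : ℝ × ℂ)
    (_ : Metric.closedBall p.2 (exp (-p.1)) ⊆ U) =>
      MeasurableSpace.comap (fun H : Field => (id H : Field) p) inferInstance)
    (p.1 - log ‖a‖, a * p.2 + b) (fun w hw => ?_) ?_
  · have h0 : 0 < ‖a‖ := norm_pos_iff.2 ha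
    have e : w = a * ((w - b) / a) + b := by field_simp; ring
    rw [e]
    refine h _ (hp ?_)
    rw [mem_closedBall_iff_norm] at hw ⊢
    have e2 : (w - b) / a - p.2 = (w - (a * p.2 + b)) / a := by field_simp; ring
    rw [e2, norm_div, div_le_iff₀ h0]
    refine hw.trans_eq ?_
    rw [neg_sub, sub_eq_add_neg, exp_add, exp_log h0, mul_comm]
  · exact measurable_iff_comap_le.1 ((comap_measurable fun H : Field =>
      H (p.1 - log ‖a‖, a * p.2 + b)).add_const (Q * log ‖a‖))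

theorem affine_inv {a : ℂ} (ha : a ≠ 0) (b : ℂ) (H : Field) :
    affine 0 a⁻¹ (-b / a) (affine 0 a b H) = H := by
  ext p
  change H (p.1 - log ‖a⁻¹‖ - log ‖a‖, a * (a⁻¹ * p.2 + -b / a) + b) + 0 * _ + 0 * _ = _
  have e : a * (a⁻¹ * p.2 + -b / a) + b = p.2 := by field_simp; ring
  rw [e, norm_inv, log_inv]
  simp

theorem lip_comp_ne_top {u v : Fn} {A A' : Set ℂ} (hu : lip u A ≠ ∞) {φ : ℂ → ℂ} {K : ℝ≥0}
    (h : ∀ z ∈ A', φ z ∈ A) (hφ : LipschitzWith K φ) (e : ∀ z, v z = u (φ z)) : lip v A' ≠ ∞ := by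
  have hK := CR.lipschitzOnWith_of_lip_le (ENNReal.coe_toNNReal hu).ge
  refine ne_top_of_le_ne_top ENNReal.coe_ne_top (CR.lip_le_of_lipschitzOnWith
    (L := (lip u A).toNNReal * K) ?_)
  rw [show (v : ℂ → ℝ) = u ∘ φ from funext e]
  exact hK.comp hφ.lipschitzOnWith h

theorem lip_add_ne_top {u v : Fn} {A : Set ℂ} (hu : lip u A ≠ ∞) (hv : lip v A ≠ ∞) :
    lip (u + v) A ≠ ∞ :=
  ne_top_of_le_ne_top (ENNReal.add_ne_top.2 ⟨hu, hv⟩) (CR.lip_add_le u v A)

theorem lip_smul_ne_top {u : Fn} {A : Set ℂ} (hu : lip u A ≠ ∞) (a : ℝ) : lip (a • u) A ≠ ∞ := by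
  have hK := CR.lipschitzOnWith_of_lip_le (ENNReal.coe_toNNReal hu).ge
  exact ne_top_of_le_ne_top ENNReal.coe_ne_top (CR.lip_le_of_lipschitzOnWith
    ((lipschitzWith_smul a).comp_lipschitzOnWith hK))

theorem dy_eq_sc (n : ℕ) : dy n 0 = ((sc n : ℝ) : ℂ) := by simp [dy, sc]

/-- Lipschitz shifts keep the null sets of the fine field of level `n`. -/
theorem null_lip (L : Layers) : ∃ m : ℕ, ∀ (n : ℕ) (y : ℂ) (u : Fn), lip u (csq y (sc n)) ≠ ∞ →
    ∀ B, MeasurableSet[sigmaOn id (osq y (3 * sc (n + m)))] B → L.P {ω | L.H n ω ∈ B} = 0 →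
      L.P {ω | addFn (L.H n ω) u ∈ B} = 0 := by
  obtain ⟨m, hm⟩ := null_lip_zero L
  refine ⟨m, fun n y u hu B hB h0 => ?_⟩
  have hs := CR.sc_pos n
  have ha := dy_ne_zero n 0
  set a := dy n 0 with hadef
  have ha' : a = ((sc n : ℝ) : ℂ) := dy_eq_sc n
  set B' := affine 0 a⁻¹ (-y / a) ⁻¹' B with hB'
  have hB'm : MeasurableSet[sigmaOn id (osq 0 (3 * sc m))] B' := by
    refine measurable_affine_on 0 (inv_ne_zero ha) _ (fun z hz => ?_) hB
    have e : a⁻¹ * z + -y / a = (z - y) / ((sc n : ℝ) : ℂ) := by rw [← ha']; field_simp; ring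
    have h1 := hz.1
    have h2 := hz.2
    rw [CR.sc_add] at h1 h2
    rw [e]
    refine ⟨?_, ?_⟩
    · rw [Complex.div_ofReal_re, Complex.zero_re, sub_zero, abs_div, abs_of_pos hs,
        div_lt_iff₀ hs, Complex.sub_re]
      exact h1.trans_eq (by rw [show sc m = 2⁻¹ ^ m from rfl]; ring)
    · rw [Complex.div_ofReal_im, Complex.zero_im, sub_zero, abs_div, abs_of_pos hs,
        div_lt_iff₀ hs, Complex.sub_im]
      exact h2.trans_eq (by rw [show sc m = 2⁻¹ ^ m from rfl]; ring)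
  have law : ∀ S : Set Field, MeasurableSet S →
      L.P {ω | affine 0 a y (L.H n ω) ∈ S} = L.P {ω | L.H 0 ω ∈ S} := fun S hS => by
    have h := congrArg (fun μ : Measure Field => μ S) (L.law_affine 0 n 0 y)
    simp only [zero_add] at h
    rwa [Measure.map_apply ((EN.measurable_affine _ _ _).fun_comp (L.meas_H _)) hS,
      Measure.map_apply (L.meas_H _) hS] at h
  have hlip : lip (res 0 a y u) (csq 0 1) ≠ ∞ := by
    rw [res, CR.lip_add_const]
    refine lip_comp_ne_top hu (K := ‖a‖₊) (fun z hz => ?_) (LipschitzWith.of_dist_le_mul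
      fun x z => ?_) fun _ => rfl
    · have h1 : |z.re| ≤ 1 := by simpa using hz.1
      have h2 : |z.im| ≤ 1 := by simpa using hz.2
      rw [ha']
      constructor
      · simpa [abs_mul, abs_of_pos hs] using mul_le_of_le_one_right hs.le h1
      · simpa [abs_mul, abs_of_pos hs] using mul_le_of_le_one_right hs.le h2
    · rw [dist_add_right, dist_eq_norm (a * x), ← mul_sub, norm_mul, ← dist_eq_norm, coe_nnnorm]
  have h1 : L.P {ω | L.H 0 ω ∈ B'} = 0 := by
    rw [← law _ (sigmaOn_le measurable_id _ _ hB'm), ← h0]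
    simp only [hB', mem_preimage, affine_inv ha]
  have h2 := hm _ hlip B' hB'm h1
  have h3 := (law _ (sigmaOn_le measurable_id _ _ (shift_on hB'm (res 0 a y u)))).trans h2
  simpa only [hB', mem_preimage, mem_ofPred_eq, ← EN.affine_addFn 0 ha, affine_inv ha] using h3

end Pool.Agent.Lib.MP_0d9445_pr.Su
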