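import Pool.Agent.Lib.MP_0d9445_pr.Su.Pair

/-! The quantum wedge is locally absolutely continuous off the unit circle. -/

open MeasureTheory ProbabilityTheory Set Filter Topology Real ComplexConjugate
open scoped NNReal ENNReal

noncomputable section

namespace Pool.Agent.Lib.MP_0d9445_pr.Su

open Mu BM ConeAux

/-- events of `V` that are null for the reference law are null for the free field plus almost
every constant -/
def FN (V : Set ℂ) : Prop := ∀ B, MeasurableSet[sigmaOn id V] B → ∀ ν, IsGFF0 ν → ref ν B = 0 →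
  ∀ᵐ H ∂ν, LN B (ev H)

variable {Ω : Type} [MeasurableSpace Ω] {P : Measure Ω} {h φ : Ω → Field} {g : Ω → ℂ → ℝ}
  {σ t₁ : ℝ} {t₀ : ℝ≥0}

theorem ref_ev {ν : Measure Field} [SFinite ν] {B : Set Field} (hB : MeasurableSet B)
    (h : ∀ᵐ H ∂ν, LN B (ev H)) : ref ν (ev ⁻¹' B) = 0 := by
  have hm : Measurable fun x : Field × ℝ => addFn x.1 (cst x.2) :=
    measurable_addFn measurable_fst (measurable_cst.comp measurable_snd)
  rw [ref, Measure.map_apply hm (measurable_ev hB),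
    Measure.measure_prod_null (hm (measurable_ev hB))]
  filter_upwards [h] with H hH
  refine gaussianReal_absolutelyContinuous 0 one_ne_zero ?_
  have e : Prod.mk H ⁻¹' ((fun x : Field × ℝ => addFn x.1 (cst x.2)) ⁻¹' (ev ⁻¹' B)) =
      (fun c => √2 * c) ⁻¹' {c | addFn (ev H) (cst c) ∈ B} := by
    ext c; simp only [mem_preimage, mem_ofPred_eq, ev_addFn, evF_cst]
  rw [e, Real.volume_preimage_mul_left (by positivity), hH, mul_zero]

theorem wedge_of (hp : IsFreePair P h φ g) (hσ : σ = 1 ∨ σ = -1) (ht₀ : t₀ ≠ 0) {V : Set ℂ}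
    (hV : closure V ⊆ Ann σ t₀ t₁) (hN : FN V) {δ : ℝ} (hδ : 0 < δ) (hVδ : ∀ z ∈ V, 2 * δ ≤ z.im)
    {X : Ω → ℝ≥0 → ℝ} (hX : Measurable X) (hi : IndepFun X φ P)
    (hac : P.map X ≪ P.map fun ω (u : ℝ≥0) => h ω (σ * ((t₀ + u : ℝ≥0) : ℝ), 0))
    {f : Ω → ℂ → ℝ} {γ : ℝ} (hf : ∀ᵐ ω ∂P, ∀ x ∈ Ann σ t₀ t₁, f ω x = g ω x +
      (√2 * (toCts (X ω) (tm σ t₀ t₁ x) + γ * -log ‖x‖) - φ ω (-log ‖x‖, 0))) :
    LocAC P h f V := by
  have hV' := subset_closure.trans hV
  have := hp.gff.gauss.isProbabilityMeasure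
  let Ψ : Field × (ℝ≥0 → ℝ) → Fn := fun x =>
    √2 • ((toCts x.2).comp (tm σ t₀ t₁) + γ • lg t₁) - (rad σ t₀ x.1).comp (tm σ t₀ t₁)
  have hΨ : Measurable Ψ := by
    have : Continuous fun x : Fn × Fn => √2 • (x.1 + γ • lg t₁) - x.2 := by fun_prop
    have m1 : Measurable fun x : Field × (ℝ≥0 → ℝ) => ((toCts x.2).comp (tm σ t₀ t₁) : Fn) :=
      measurable_J.comp (measurable_toCts.comp measurable_snd)
    have m2 : Measurable fun x : Field × (ℝ≥0 → ℝ) => ((rad σ t₀ x.1).comp (tm σ t₀ t₁) : Fn) :=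
      measurable_J.comp (measurable_rad.comp measurable_fst)
    have m3 := this.measurable.comp (m1.prodMk m2)
    exact m3
  have hφX := hp.free.meas.prodMk hX
  refine locAC_free hp .rfl (F := fun ω => Ψ (φ ω, X ω)) (hΨ.fun_comp hφX) (isOpen_Ann _ _ _) hV hδ
    hVδ (hf.mono fun ω hω x hx => ?_) fun B hB hB0 => ?_
  · rw [hω x hx, ← tm_eq' hσ hx]
    change _ = _ + (√2 * (toCts (X ω) (tm σ t₀ t₁ x) + γ * lg t₁ x) -
      φ ω (σ * ((t₀ + tm σ t₀ t₁ x : ℝ≥0) : ℝ), 0))
    rw [lg_eq hσ hx, tm_eq' hσ hx]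
  have hG := isGFF0_map hp.gff hp.zero
  set ν := P.map h
  have := hG.prob
  have := Measure.isProbabilityMeasure_map (μ := P) hX.aemeasurable
  have hBm : MeasurableSet B := sigmaOn_le measurable_id V B hB
  have hB' : MeasurableSet[sigmaOn id (Ann σ t₀ t₁)] (ev ⁻¹' B) :=
    measurable_ev_on hV' (fun z hz => by
      simpa only [Ann, mem_ofPred_eq, Complex.norm_conj, map_ne_zero] using hV' hz) hB
  have h1 := log_null hG (CM.cmPot hG) hσ ht₀ subset_rfl hB' (ref_ev hBm (hN B hB ν hG hB0)) γ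
  have hR : Measurable fun (H : Field) (u : ℝ≥0) => H (σ * ((t₀ + u : ℝ≥0) : ℝ), 0) :=
    measurable_pi_lambda _ fun u => measurable_eval _
  have hfst : MeasurePreserving Prod.fst (ν.prod (P.map X)) ν := measurePreserving_fst
  have h2 := swap_null (P := ν.prod (P.map X)) (h := Prod.fst) (isGFF_comp (h := id) hG.1 hfst)
    (hfst.quasiMeasurePreserving.ae hG.2) hσ subset_rfl measurable_snd
    (indepFun_prod measurable_id measurable_id).symm (by
      rw [Measure.map_snd_prod, measure_univ, one_smul]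
      refine hac.trans (Measure.absolutelyContinuous_of_eq ?_)
      exact (Measure.map_map hR hp.gff.meas).symm.trans ((congrArg (Measure.map _)
        hfst.map_eq.symm).trans (Measure.map_map hR measurable_fst)))
    (shift_meas hB' (γ • lg t₁)) (hfst.quasiMeasurePreserving.preimage_null h1)
  have hS : MeasurableSet {x : Field × (ℝ≥0 → ℝ) | addFn x.1 (Ψ x) ∈ B} :=
    measurable_addFn measurable_fst hΨ hBm
  have h3 := hi.symm.map_prod_eq_prod_map_map hp.free.meas.aemeasurable hX.aemeasurable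
  rw [free_law hp.free hG, ← Measure.map_id (μ := P.map X),
    Measure.map_prod_map _ _ measurable_ev measurable_id] at h3
  refine (Measure.map_apply hφX hS).symm.trans ?_
  rw [h3, Measure.map_apply (measurable_ev.prodMap measurable_id) hS, ← h2]
  congr 1
  ext x
  have e : evF ((toCts x.2).comp (tm σ t₀ t₁) - (rad σ t₀ x.1).comp (tm σ t₀ t₁) + γ • lg t₁) =
      Ψ (ev x.1, x.2) := by
    ext z
    have e1 : lg t₁ (conj z) = lg t₁ z := by simp [lg]
    have e2 : tm σ t₀ t₁ (conj z) = tm σ t₀ t₁ z := by simp only [tm, ContinuousMap.coe_mk, e1]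
    have h2 : √2 * √2 = 2 := mul_self_sqrt zero_le_two
    have h0 : √2 ≠ 0 := by positivity
    simp only [Ψ, evF_apply, ContinuousMap.add_apply, ContinuousMap.sub_apply, e1, e2,
      ContinuousMap.smul_apply, ContinuousMap.comp_apply, smul_eq_mul, rad, ContinuousMap.coe_mk,
      ev_apply, map_zero]
    field_simp
    linear_combination (-(toCts x.2 (tm σ t₀ t₁ z) + γ * lg t₁ z)) * h2
  simp only [mem_preimage, mem_ofPred_eq, addFn_addFn, ev_addFn, ← evF_add, e, Prod.map_fst]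
  rfl

/-- SU for the wedge -/
theorem wedge_locAC_of {γ Q : ℝ} {f : Ω → ℂ → ℝ} (hC : IsWedge γ Q P h f) {V : Set ℂ}
    (hb : Bornology.IsBounded V) (hN : FN V) {δ : ℝ} (hδ : 0 < δ) (hVδ : ∀ z ∈ V, 2 * δ ≤ z.im)
    (hV : closure V ⊆ {x | 0 < ‖x‖ ∧ ‖x‖ < 1} ∨ closure V ⊆ {x | 1 < ‖x‖}) : LocAC P h f V := by
  obtain ⟨φ, g, hp, b, c, hbm, hcm, hbB, hcB, -, hi, hf⟩ := hC
  have hβ : ∀ (σ : ℝ) (t : ℝ≥0), Measurable fun ω => h ω (σ * t, 0) := fun σ t =>
    (measurable_eval _).comp hp.gff.meas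
  rcases hV with hV | hV
  · obtain ⟨t₀, t₁, ht₀, hA⟩ := exists_Ann hb (σ := 1) fun x hx =>
      ⟨norm_pos_iff.1 (hV hx).1, by linarith [log_neg (hV hx).1 (hV hx).2]⟩
    have hpre := (decomp hp.gff hp.zero (Or.inl rfl) (subset_closure.trans hA)).1
    have m1 : Measurable fun p : (ℝ≥0 → ℝ) × (ℝ≥0 → ℝ) => fun u => p.1 (t₀ + u) := by fun_prop
    refine wedge_of hp (Or.inl rfl) ht₀ hA hN hδ hVδ (X := fun ω u => b (t₀ + u) ω)
      (measurable_pi_lambda _ fun u => hbm _) (hi.comp m1 measurable_id) ?_ (γ := γ / √2) ?_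
    · simpa only [zero_add] using
        RadAux.shift_ac hbB.toIsPreBrownianReal hbm hpre (hβ 1) 0 ht₀ ht₀
    · filter_upwards [hbB.cont] with ω hω x hx
      have h1 := tm_eq (Or.inl rfl) hx
      rw [one_mul] at h1
      have h2 : Continuous fun u => b (t₀ + u) ω := hω.comp (by fun_prop)
      rw [hf, toCts_apply h2, radial, if_pos (h1 ▸ NNReal.coe_nonneg _), ← h1, Real.toNNReal_coe]
  · obtain ⟨t₀, t₁, ht₀, hA⟩ := exists_Ann hb (σ := -1) fun x hx =>
      ⟨norm_pos_iff.1 (one_pos.trans (hV hx)), by linarith [log_pos (hV hx)]⟩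
    have hpre := (decomp hp.gff hp.zero (Or.inr rfl) (subset_closure.trans hA)).1
    have m1 : Measurable fun p : (ℝ≥0 → ℝ) × (ℝ≥0 → ℝ) => afterZ (Q / √2 - γ / √2) t₀ p.2 :=
      (measurable_afterZ _ _).comp measurable_snd
    refine wedge_of hp (Or.inr rfl) ht₀ hA hN hδ hVδ
      (X := fun ω => afterZ (Q / √2 - γ / √2) t₀ fun u => c u ω)
      ((measurable_afterZ _ _).comp (measurable_pi_lambda _ hcm)) (hi.comp m1 measurable_id)
      (afterZ_ac hcB hcm hpre (hβ (-1)) _ ht₀) (γ := γ / √2) ?_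
    filter_upwards [hcB.cont] with ω hω x hx
    have h1 := tm_eq (Or.inr rfl) hx
    rw [neg_one_mul] at h1
    have h2 : Continuous (afterZ (Q / √2 - γ / √2) t₀ fun u => c u ω) := by
      rw [funext (afterZ_apply _ _ hω)]
      exact (hω.comp (by fun_prop)).add continuous_const
    have h3 : ¬ 0 ≤ -log ‖x‖ := by
      have := hx.2.1
      have := t₀.coe_nonneg
      have : (t₀ : ℝ) ≠ 0 := NNReal.coe_ne_zero.2 ht₀
      intro h4
      exact this (by linarith)
    rw [hf, toCts_apply h2, afterZ_apply _ _ hω, radial, if_neg h3, ← h1, Real.toNNReal_coe, h1]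
    unfold lastZ
    ring

end Pool.Agent.Lib.MP_0d9445_pr.Su
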